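import Mathlib

/-!
Elementary inequalities for the two-part barrier of the circulation (one-sided bounds of the first
type).
-/

set_option autoImplicit false

open Set Filter Topology

namespace Pool.Agent.D0H31.AT

/-- The function `q(z) = e^{-bz} + e^{-z/2}`. -/
noncomputable def qf (b z : ℝ) : ℝ := Real.exp (-(b * z)) + Real.exp (-(z / 2))

/-- Minus its derivative. -/
noncomputable def q1f (b z : ℝ) : ℝ := b * Real.exp (-(b * z)) + Real.exp (-(z / 2)) / 2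

/-- Its second derivative. -/
noncomputable def q2f (b z : ℝ) : ℝ := b ^ 2 * Real.exp (-(b * z)) + Real.exp (-(z / 2)) / 4

theorem qf_pos (b z : ℝ) : 0 < qf b z := by unfold qf; positivity

theorem q1f_pos (b z : ℝ) (hb : 0 < b) : 0 < q1f b z := by unfold q1f; positivity

theorem qf_deriv (b z : ℝ) : HasDerivAt (qf b) (-q1f b z) z := by
  unfold qf q1f
  have h1 : HasDerivAt (fun z : ℝ => -(b * z)) (-(b * 1)) z := ((hasDerivAt_id z).const_mul b).neg
  have h2 : HasDerivAt (fun z : ℝ => -(z / 2)) (-(1 / 2)) z := ((hasDerivAt_id z).div_const 2).neg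
  refine (h1.exp.add h2.exp).congr_deriv ?_
  ring

theorem q1f_deriv (b z : ℝ) : HasDerivAt (q1f b) (-q2f b z) z := by
  unfold q1f q2f
  have h1 : HasDerivAt (fun z : ℝ => -(b * z)) (-(b * 1)) z := ((hasDerivAt_id z).const_mul b).neg
  have h2 : HasDerivAt (fun z : ℝ => -(z / 2)) (-(1 / 2)) z := ((hasDerivAt_id z).div_const 2).neg
  refine ((h1.exp.const_mul b).add (h2.exp.div_const 2)).congr_deriv ?_
  ring

/-- The first part of the barrier: the gain. -/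
theorem part_one (ε b K₀ kL R z w₀ : ℝ) (hb : 0 < b) (hb4 : b ≤ 1 / 4) (hbε : 4 * b ≤ ε)
    (hK₀ : 1 ≤ 4 * b ^ 2 * K₀) (hkL : 0 ≤ kL) (hw : w₀ ≤ Real.exp (-(z / 2)))
    (hR : 2 * ε - 2 * kL * w₀ ≤ R) :
    ε * b * Real.exp (-(b * z)) ≤
      q1f b z * R - 4 * q2f b z + 4 * (kL + K₀) * q1f b z ^ 2 := by
  have hq1 := q1f_pos b z hb
  obtain ⟨u, hu⟩ : ∃ u : ℝ, u = Real.exp (-(b * z)) := ⟨_, rfl⟩
  obtain ⟨v, hv⟩ : ∃ v : ℝ, v = Real.exp (-(z / 2)) := ⟨_, rfl⟩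
  have hu0 : 0 < u := by rw [hu]; exact Real.exp_pos _
  have hv0 : 0 < v := by rw [hv]; exact Real.exp_pos _
  have hK1 : 1 ≤ K₀ := by
    have h1 : 4 * b ^ 2 ≤ 1 / 4 := by nlinarith
    by_contra hc
    push Not at hc
    have h2 : 0 < 4 * b ^ 2 := by positivity
    nlinarith
  have e1 : q1f b z = b * u + v / 2 := by unfold q1f; rw [hu, hv]
  have e2 : q2f b z = b ^ 2 * u + v / 4 := by unfold q2f; rw [hu, hv]
  rw [e1] at hq1
  rw [e1, e2, ← hu]
  rw [← hv] at hw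
  have h1 : (b * u + v / 2) * (2 * ε - 2 * kL * v) ≤ (b * u + v / 2) * R := by
    apply mul_le_mul_of_nonneg_left _ hq1.le
    have : kL * w₀ ≤ kL * v := mul_le_mul_of_nonneg_left hw hkL
    linarith
  have h2 : v ≤ 4 * K₀ * (b * u + v / 2) ^ 2 := by
    rcases le_total 0 z with hz | hz
    · have h3 : v ≤ u ^ 2 := by
        rw [hu, hv, ← Real.exp_nat_mul]
        apply Real.exp_le_exp.2
        push_cast
        nlinarith
      have h4 : u ^ 2 ≤ 4 * b ^ 2 * K₀ * u ^ 2 := by nlinarith [sq_nonneg u]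
      have h5 : 0 ≤ K₀ * (b * u * v) := by positivity
      have h6 : 0 ≤ K₀ * v ^ 2 := by positivity
      nlinarith
    · have h3 : 1 ≤ v := by
        rw [hv]
        apply Real.one_le_exp
        linarith
      have h5 : 0 ≤ K₀ * (b * u * v) := by positivity
      have h6 : 0 ≤ K₀ * (b * u) ^ 2 := by positivity
      have h7 : v ≤ K₀ * v ^ 2 := by nlinarith
      nlinarith
  have h3 : 2 * kL * v * (b * u + v / 2) ≤ 4 * kL * (b * u + v / 2) ^ 2 := by
    have h4 : v ≤ 2 * (b * u + v / 2) := by nlinarith [mul_pos hb hu0]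
    have h5 : 0 ≤ kL * (b * u + v / 2) := by positivity
    nlinarith [mul_le_mul_of_nonneg_left h4 h5]
  have h4 : ε * b * u ≤ (2 * ε * b - 4 * b ^ 2) * u + ε * v := by
    have h5 : 0 ≤ ε * v := by
      have : 0 ≤ ε := by linarith
      positivity
    have h6 : 4 * b * (b * u) ≤ ε * (b * u) := mul_le_mul_of_nonneg_right hbε (by positivity)
    nlinarith
  nlinarith

/-- Sizes of `e^{-bz}` and `e^{-z/2}` if the latter is at most `W`. -/
theorem sizes (b z W : ℝ) (hb : 0 < b) (hb4 : b ≤ 1 / 4) (hW : 1 ≤ W)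
    (hv : Real.exp (-(z / 2)) ≤ W) : Real.exp (-(b * z)) ≤ √W ∧
      Real.exp (-(z / 2)) ≤ Real.exp (-(b * z)) * W := by
  have hW0 : 0 < W := by linarith
  rcases le_total 0 z with hz | hz
  · constructor
    · have h1 : Real.exp (-(b * z)) ≤ 1 := by
        apply Real.exp_le_one_iff.2
        nlinarith
      exact h1.trans (Real.one_le_sqrt.2 hW)
    · have h1 : Real.exp (-(z / 2)) ≤ Real.exp (-(b * z)) := by
        apply Real.exp_le_exp.2
        nlinarith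
      refine h1.trans ?_
      have := Real.exp_pos (-(b * z))
      nlinarith
  · constructor
    · have h1 : Real.exp (-(b * z)) ≤ √(Real.exp (-(z / 2))) := by
        rw [← Real.exp_half]
        apply Real.exp_le_exp.2
        nlinarith
      exact h1.trans (Real.sqrt_le_sqrt hv)
    · have h1 : 1 ≤ Real.exp (-(b * z)) := by
        apply Real.one_le_exp
        nlinarith
      nlinarith

/-- The case of large `s / (T - t)`: the second part of the barrier dominates. -/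
theorem case_far (α P1 ϱ e θ x N H g β kL w₀ : ℝ) (hα : 0 < α) (hP : 0 < P1) (hϱ : 0 < ϱ)
    (hw : 0 ≤ w₀) (hw2 : w₀ ^ 2 = ϱ) (he : 0 < e) (hx : 0 ≤ θ * P1 * x) (hN : 0 < N)
    (hH : α / 2 * P1 ≤ H) (hg : 4 ≤ N * (g - β)) (hkL : 2 * kL ≤ β * w₀) :
    0 < -(α * P1 * ϱ * (1 - e)) + θ * P1 * x + N * H * (g * ϱ - 2 * kL * w₀) := by
  have h1 : 2 * kL * w₀ ≤ β * ϱ := by
    rw [← hw2]
    nlinarith
  have h2 : (g - β) * ϱ ≤ g * ϱ - 2 * kL * w₀ := by linarith
  have hH0 : 0 < H := lt_of_lt_of_le (by positivity) hH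
  have h3 : N * H * ((g - β) * ϱ) ≤ N * H * (g * ϱ - 2 * kL * w₀) :=
    mul_le_mul_of_nonneg_left h2 (by positivity)
  have h4 : 4 * (H * ϱ) ≤ N * (g - β) * (H * ϱ) := mul_le_mul_of_nonneg_right hg (by positivity)
  have h5 : α / 2 * P1 * ϱ ≤ H * ϱ := mul_le_mul_of_nonneg_right hH hϱ.le
  have h6 : 0 < α * P1 * ϱ := by positivity
  have h7 : 0 < α * P1 * ϱ * e := by positivity
  nlinarith

/-- The case of bounded `s / (T - t)`: the first part of the barrier dominates. -/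
theorem case_near (α P1 ϱ θ N H g kL w₀ K ε b z W Λ : ℝ) (hα : 0 < α) (hP : 0 < P1)
    (hϱ : 0 < ϱ) (hw : 0 ≤ w₀) (hw2 : w₀ ^ 2 = ϱ) (hN : 0 < N) (hH0 : 0 < H) (hH : H ≤ α * Λ * P1)
    (hg : 0 ≤ g) (hkL : 0 ≤ kL) (hb : 0 < b) (hb4 : b ≤ 1 / 4) (hε : 0 < ε) (hW : 1 ≤ W) (hK : 1 ≤ K)
    (hwz : w₀ ≤ Real.exp (-(z / 2))) (hv : Real.exp (-(z / 2)) ≤ W) (hθ : 0 < θ)
    (hmain : 2 * α * W ^ 3 + 2 * N * α * Λ * kL * W
      < ε * b * (θ * Real.exp (-(K * (W + √W))))) :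
    0 < -(α * P1 * ϱ * (1 - Real.exp (-(K * qf b z))))
      + θ * P1 * (K * Real.exp (-(K * qf b z)) * (ε * b * Real.exp (-(b * z))))
      + N * H * (g * ϱ - 2 * kL * w₀) := by
  obtain ⟨h1, h2⟩ := sizes b z W hb hb4 hW hv
  obtain ⟨u, hu⟩ : ∃ u : ℝ, u = Real.exp (-(b * z)) := ⟨_, rfl⟩
  obtain ⟨v, hv'⟩ : ∃ v : ℝ, v = Real.exp (-(z / 2)) := ⟨_, rfl⟩
  have hu0 : 0 < u := by rw [hu]; exact Real.exp_pos _
  have hv0 : 0 < v := by rw [hv']; exact Real.exp_pos _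
  have hq : qf b z = u + v := by unfold qf; rw [hu, hv']
  rw [hq]
  rw [← hu, ← hv'] at h2
  rw [← hu] at h1 ⊢
  rw [← hv'] at hwz hv
  obtain ⟨e, he⟩ : ∃ e : ℝ, e = Real.exp (-(K * (u + v))) := ⟨_, rfl⟩
  rw [← he]
  have he0 : 0 < e := by rw [he]; exact Real.exp_pos _
  have hK0 : 0 < K := by linarith
  have hW0 : 0 < W := by linarith
  have he1 : 1 - e ≤ K * (u + v) := by
    have := Real.add_one_le_exp (-(K * (u + v)))
    rw [← he] at this
    linarith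
  have he2 : Real.exp (-(K * (W + √W))) ≤ e := by
    rw [he]
    apply Real.exp_le_exp.2
    have : K * (u + v) ≤ K * (W + √W) := mul_le_mul_of_nonneg_left (by linarith) hK0.le
    linarith
  have hϱv : ϱ ≤ v ^ 2 := by rw [← hw2]; exact pow_le_pow_left₀ hw hwz 2
  have hϱW : ϱ ≤ W ^ 2 := hϱv.trans (pow_le_pow_left₀ hv0.le hv 2)
  have a1 : ϱ * (1 - e) ≤ 2 * K * W ^ 3 * u := by
    have b1 : ϱ * (1 - e) ≤ ϱ * (K * (u + v)) := mul_le_mul_of_nonneg_left he1 hϱ.le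
    have b2 : ϱ * (K * (u + v)) ≤ W ^ 2 * (K * (u + v)) :=
      mul_le_mul_of_nonneg_right hϱW (by positivity)
    have b3 : u + v ≤ 2 * W * u := by nlinarith
    have b4 : W ^ 2 * (K * (u + v)) ≤ W ^ 2 * (K * (2 * W * u)) :=
      mul_le_mul_of_nonneg_left (mul_le_mul_of_nonneg_left b3 hK0.le) (by positivity)
    calc ϱ * (1 - e) ≤ W ^ 2 * (K * (2 * W * u)) := b1.trans (b2.trans b4)
      _ = 2 * K * W ^ 3 * u := by ring
  have a2 : kL * w₀ ≤ kL * W * u := by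
    have : w₀ ≤ u * W := hwz.trans h2
    calc kL * w₀ ≤ kL * (u * W) := mul_le_mul_of_nonneg_left this hkL
      _ = kL * W * u := by ring
  have a3 : N * H * (2 * kL * w₀) ≤ N * (α * Λ * P1) * (2 * (kL * W * u)) := by
    have c1 : N * H ≤ N * (α * Λ * P1) := mul_le_mul_of_nonneg_left hH hN.le
    have c2 : 0 ≤ 2 * kL * w₀ := by positivity
    have c3 : 0 < N * (α * Λ * P1) := by
      have := hH0.trans_le hH
      positivity
    calc N * H * (2 * kL * w₀) ≤ N * (α * Λ * P1) * (2 * kL * w₀) :=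
          mul_le_mul_of_nonneg_right c1 c2
      _ ≤ N * (α * Λ * P1) * (2 * (kL * W * u)) := by
          apply mul_le_mul_of_nonneg_left _ c3.le
          linarith
  have a4 : α * P1 * ϱ * (1 - e) ≤ α * P1 * (2 * K * W ^ 3 * u) := by
    have : 0 < α * P1 := by positivity
    calc α * P1 * ϱ * (1 - e) = α * P1 * (ϱ * (1 - e)) := by ring
      _ ≤ _ := mul_le_mul_of_nonneg_left a1 this.le
  have a5 : ε * b * (θ * Real.exp (-(K * (W + √W)))) ≤ ε * b * (θ * e) := by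
    have : 0 < ε * b := by positivity
    exact mul_le_mul_of_nonneg_left (mul_le_mul_of_nonneg_left he2 hθ.le) this.le
  have a6 : 2 * α * W ^ 3 + 2 * N * α * Λ * kL * W < ε * b * (θ * e) := hmain.trans_le a5
  have a7 : 0 ≤ 2 * N * α * Λ * kL * W := by
    have h8 : 0 < α * Λ * P1 := hH0.trans_le hH
    have h9 : 0 < α * Λ := by
      by_contra hc
      push Not at hc
      nlinarith
    have : 2 * N * α * Λ * kL * W = 2 * N * (α * Λ) * kL * W := by ring
    rw [this]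
    positivity
  have a8 : K * (2 * α * W ^ 3) + 2 * N * α * Λ * kL * W < K * (ε * b * (θ * e)) := by
    have c1 : K * (2 * α * W ^ 3 + 2 * N * α * Λ * kL * W) < K * (ε * b * (θ * e)) :=
      mul_lt_mul_of_pos_left a6 hK0
    nlinarith
  have a9 : 0 < P1 * u := by positivity
  have a10 := mul_lt_mul_of_pos_left a8 a9
  have a11 : 0 ≤ N * H * (g * ϱ) := by positivity
  nlinarith

/-- The exponential of the square dominates. -/
theorem asym (σ D A η : ℝ) (hσ : σ < 1) (hD : 0 ≤ D) (hA : 0 ≤ A) (hη : 0 < η) :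
    ∃ L₀ : ℝ, 1 ≤ L₀ ∧ ∀ L : ℝ, L₀ ≤ L →
      A * L ^ 3 < η * (Real.exp (L ^ 2) * Real.exp (-(σ * L ^ 2 + D * √L ^ 3))) := by
  have h1σ : 0 < 1 - σ := by linarith
  refine ⟨max 1 (max ((2 * D / (1 - σ)) ^ 2) (8 * A / (η * (1 - σ) ^ 2) + 1)), le_max_left _ _, ?_⟩
  intro L hL
  have h1 : 1 ≤ L := (le_max_left _ _).trans hL
  have h2 : (2 * D / (1 - σ)) ^ 2 ≤ L := ((le_max_left _ _).trans (le_max_right _ _)).trans hL
  have h3 : 8 * A / (η * (1 - σ) ^ 2) + 1 ≤ L :=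
    ((le_max_right _ _).trans (le_max_right _ _)).trans hL
  have hL0 : 0 < L := by linarith
  obtain ⟨r, hr⟩ : ∃ r : ℝ, r = √L := ⟨_, rfl⟩
  have hr0 : 0 < r := by rw [hr]; exact Real.sqrt_pos.2 hL0
  have hr2 : r ^ 2 = L := by rw [hr]; exact Real.sq_sqrt hL0.le
  have h4 : 2 * D / (1 - σ) ≤ r := by
    rw [hr]
    exact Real.le_sqrt_of_sq_le h2
  have h5 : 2 * D ≤ r * (1 - σ) := (div_le_iff₀ h1σ).1 h4
  rw [← Real.exp_add, ← hr]
  have h6 : (1 - σ) / 2 * L ^ 2 ≤ L ^ 2 + -(σ * L ^ 2 + D * r ^ 3) := by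
    rw [← hr2]
    have h7 : 0 ≤ r ^ 3 := by positivity
    nlinarith [mul_le_mul_of_nonneg_right h5 h7]
  have h7 : ((1 - σ) / 2 * L ^ 2) ^ 2 / 2 ≤ Real.exp ((1 - σ) / 2 * L ^ 2) := by
    have := Real.quadratic_le_exp_of_nonneg (show 0 ≤ (1 - σ) / 2 * L ^ 2 by positivity)
    have : 0 ≤ (1 - σ) / 2 * L ^ 2 := by positivity
    linarith
  have h8 := Real.exp_le_exp.2 h6
  have h9 : 8 * A < L * (η * (1 - σ) ^ 2) := by
    have : 8 * A / (η * (1 - σ) ^ 2) < L := by linarith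
    rwa [div_lt_iff₀ (by positivity)] at this
  have h10 : A * L ^ 3 < η * (((1 - σ) / 2 * L ^ 2) ^ 2 / 2) := by
    have h11 : 0 < L ^ 3 := by positivity
    nlinarith [mul_lt_mul_of_pos_right h9 h11]
  exact h10.trans_le (mul_le_mul_of_nonneg_left (h7.trans h8) hη.le)

end Pool.Agent.D0H31.AT
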