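import Pool.Agent.Q65.AXI.LogPA
import Pool.Agent.D0H31.AT.Ineq

/-!
The two-part barrier: calculus.
-/

set_option autoImplicit false

open Set Filter Topology
open scoped ContDiff

namespace Pool.Agent.D0H31.AT

open Pool.Agent.Q65.AXI

/-- The first part of the barrier. -/
noncomputable def br (b : ℝ) (P K n : ℝ → ℝ) (t s : ℝ) : ℝ :=
  P t * (1 - Real.exp (-(K t * qf b (-Real.log s + n t))))

noncomputable def brS (b : ℝ) (P K n : ℝ → ℝ) (t s : ℝ) : ℝ :=
  P t * (K t * q1f b (-Real.log s + n t) * Real.exp (-(K t * qf b (-Real.log s + n t))) / s)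

noncomputable def brSS (b : ℝ) (P K n : ℝ → ℝ) (t s : ℝ) : ℝ :=
  P t * ((K t * q2f b (-Real.log s + n t) - K t ^ 2 * q1f b (-Real.log s + n t) ^ 2
    - K t * q1f b (-Real.log s + n t)) * Real.exp (-(K t * qf b (-Real.log s + n t))) / s ^ 2)

noncomputable def brT (b : ℝ) (P P' K K' n n' : ℝ → ℝ) (t s : ℝ) : ℝ :=
  P' t * (1 - Real.exp (-(K t * qf b (-Real.log s + n t))))
    + P t * ((K' t * qf b (-Real.log s + n t) - K t * q1f b (-Real.log s + n t) * n' t)
      * Real.exp (-(K t * qf b (-Real.log s + n t))))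

theorem z_ds (n : ℝ → ℝ) (t s : ℝ) (hs : 0 < s) :
    HasDerivAt (fun σ => -Real.log σ + n t) (-s⁻¹) s :=
  ((Real.hasDerivAt_log hs.ne').neg).add_const _

theorem br_dt (b : ℝ) (P P' K K' n n' : ℝ → ℝ) (t s : ℝ) (hP : HasDerivAt P (P' t) t)
    (hK : HasDerivAt K (K' t) t) (hn : HasDerivAt n (n' t) t) :
    HasDerivAt (fun τ => br b P K n τ s) (brT b P P' K K' n n' t s) t := by
  unfold br brT
  have h1 : HasDerivAt (fun τ => -Real.log s + n τ) (n' t) t := hn.const_add _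
  have h2 := (qf_deriv b (-Real.log s + n t)).comp t h1
  have h3 := (((hK.mul h2).neg).exp.const_sub 1)
  have h4 := hP.mul h3
  refine h4.congr_deriv ?_
  simp only [Function.comp, Pi.mul_apply, Pi.neg_apply]
  ring

theorem br_ds (b : ℝ) (P K n : ℝ → ℝ) (t s : ℝ) (hs : 0 < s) :
    HasDerivAt (br b P K n t) (brS b P K n t s) s := by
  unfold br brS
  have h2 := (qf_deriv b (-Real.log s + n t)).comp s (z_ds n t s hs)
  have h3 := (((h2.const_mul (K t)).neg).exp.const_sub 1).const_mul (P t)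
  refine h3.congr_deriv ?_
  simp only [Function.comp, Pi.neg_apply]
  field_simp

theorem br_dss (b : ℝ) (P K n : ℝ → ℝ) (t s : ℝ) (hs : 0 < s) :
    HasDerivAt (brS b P K n t) (brSS b P K n t s) s := by
  unfold brS brSS
  have h2 := (qf_deriv b (-Real.log s + n t)).comp s (z_ds n t s hs)
  have h3 := ((h2.const_mul (K t)).neg).exp
  have h4 := ((q1f_deriv b (-Real.log s + n t)).comp s (z_ds n t s hs)).const_mul (K t)
  have h5 := ((h4.mul h3).div (hasDerivAt_id s) hs.ne').const_mul (P t)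
  refine h5.congr_deriv ?_
  simp only [Function.comp, id, Pi.mul_apply, Pi.neg_apply]
  field_simp
  ring

theorem qf_smooth (b : ℝ) : ContDiff ℝ 2 (qf b) := by
  unfold qf
  fun_prop

theorem br_smooth (b : ℝ) (P K n : ℝ → ℝ) (t r : ℝ) :
    ContDiffOn ℝ 2 (br b P K n t) (Ioo 0 r) := by
  unfold br
  apply contDiffOn_const.mul
  apply contDiffOn_const.sub
  apply ContDiffOn.exp
  apply ContDiffOn.neg
  apply contDiffOn_const.mul
  apply (qf_smooth b).comp_contDiffOn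
  apply ContDiffOn.add _ contDiffOn_const
  apply ContDiffOn.neg
  intro s hs
  exact (Real.contDiffAt_log.2 hs.1.ne').contDiffWithinAt

theorem br_cont (b : ℝ) (P K n : ℝ → ℝ) (I : Set ℝ) (r : ℝ) (hP : ContinuousOn P I)
    (hK : ContinuousOn K I) (hn : ContinuousOn n I) :
    ContinuousOn (fun z : ℝ × ℝ => br b P K n z.1 z.2) (I ×ˢ Ioc 0 r) := by
  unfold br
  have hfst : MapsTo (fun z : ℝ × ℝ => z.1) (I ×ˢ Ioc 0 r) I := fun z hz => hz.1
  apply (hP.comp continuousOn_fst hfst).mul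
  apply continuousOn_const.sub
  apply ContinuousOn.rexp
  apply ContinuousOn.neg
  apply (hK.comp continuousOn_fst hfst).mul
  apply (qf_smooth b).continuous.comp_continuousOn
  apply ContinuousOn.add
  · apply ContinuousOn.neg
    apply ContinuousOn.log continuousOn_snd
    intro z hz
    exact hz.2.1.ne'
  · exact hn.comp continuousOn_fst hfst

theorem br_nonneg (b : ℝ) (P K n : ℝ → ℝ) (t s : ℝ) (hP : 0 ≤ P t) (hK : 0 ≤ K t) :
    0 ≤ br b P K n t s := by
  unfold br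
  apply mul_nonneg hP
  have h1 := qf_pos b (-Real.log s + n t)
  have h2 : Real.exp (-(K t * qf b (-Real.log s + n t))) ≤ 1 := by
    apply Real.exp_le_one_iff.2
    have : 0 ≤ K t * qf b (-Real.log s + n t) := mul_nonneg hK h1.le
    linarith
  linarith

theorem brS_nonneg (b : ℝ) (P K n : ℝ → ℝ) (t s : ℝ) (hb : 0 < b) (hP : 0 ≤ P t) (hK : 0 ≤ K t)
    (hs : 0 < s) : 0 ≤ brS b P K n t s := by
  unfold brS
  have h1 := q1f_pos b (-Real.log s + n t) hb
  positivity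

/-- The barrier. -/
noncomputable def KB (C N a b : ℝ) (P K n m : ℝ → ℝ) (t s : ℝ) : ℝ :=
  C * br b P K n t s + kp (C * N) a m t s

noncomputable def KBS (C N a b : ℝ) (P K n m : ℝ → ℝ) (t s : ℝ) : ℝ :=
  C * brS b P K n t s + kpS (C * N) a m t s

noncomputable def KBSS (C N a b : ℝ) (P K n m : ℝ → ℝ) (t s : ℝ) : ℝ :=
  C * brSS b P K n t s + kpSS (C * N) a m t s

noncomputable def KBT (C N a b : ℝ) (P P' K K' n n' m m' : ℝ → ℝ) (t s : ℝ) : ℝ :=
  C * brT b P P' K K' n n' t s + kpT (C * N) a m m' t s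

/-- The differential inequality: reduction to the sum of the two parts. -/
theorem KB_ineq (C N a b ε K₀ kL c γ τ θ P1 Bq w₀ : ℝ) (P P' K K' n n' m m' : ℝ → ℝ)
    (t s rd : ℝ) (hC : 0 < C) (hN : 0 < N) (ha : 0 < a) (hs : 0 < s) (hτ : 0 < τ)
    (hb : 0 < b) (hb4 : b ≤ 1 / 4) (hbε : 4 * b ≤ ε)
    (hK₀ : 1 ≤ 4 * b ^ 2 * K₀) (hkL : 0 ≤ kL) (hc : 2 * c ≤ 1) (hθP : 0 ≤ θ * P1)
    (hP : P t = θ * P1) (hP' : P' t = -(a * P1 / τ)) (hK : K t = kL + K₀) (hK' : 0 ≤ K' t)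
    (hKt : 0 ≤ K t)
    (hn' : n' t = -(1 / τ + 2 * Bq)) (hm' : m' t = -(γ / τ + 2 * Bq))
    (hw : w₀ ≤ Real.exp (-((-Real.log s + n t) / 2)))
    (hrd : -(2 - ε) - kL * w₀ - (c / τ + Bq) * s ≤ rd)
    (hy : 0 < -Real.log s + m t) (hyε : 2 * (a + 1) ≤ ε * (-Real.log s + m t))
    (hfin : 0 < -(a * P1 * (s / τ) * (1 - Real.exp (-(K t * qf b (-Real.log s + n t)))))
      + θ * P1 * (K t * Real.exp (-(K t * qf b (-Real.log s + n t)))
        * (ε * b * Real.exp (-(b * (-Real.log s + n t)))))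
      + N * hh1 a (-Real.log s + m t) * ((γ - 2 * c) * (s / τ) - 2 * kL * w₀)) :
    0 < KBT C N a b P P' K K' n n' m m' t s + 2 * rd * KBS C N a b P K n m t s
      - 4 * s * KBSS C N a b P K n m t s := by
  have hone := part_one ε b K₀ kL ((1 / τ + 2 * Bq) * s + 2 * rd + 4) (-Real.log s + n t) w₀
    hb hb4 hbε hK₀ hkL hw (by
      have e1 : (1 / τ + 2 * Bq) * s + 2 * rd + 4 - (2 * ε - 2 * kL * w₀)
          = (1 - 2 * c) * (s / τ) + 2 * (rd - (-(2 - ε) - kL * w₀ - (c / τ + Bq) * s)) := by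
        ring
      have e2 : 0 ≤ (1 - 2 * c) * (s / τ) := mul_nonneg (by linarith) (by positivity)
      linarith)
  have h1 := hh1_pos a (-Real.log s + m t) ha
  have h2 := hh2_le a (-Real.log s + m t) ha hy
  unfold KBT KBS KBSS brT brS brSS kpT kpS kpSS
  obtain ⟨z, hz⟩ : ∃ z : ℝ, z = -Real.log s + n t := ⟨_, rfl⟩
  obtain ⟨y, hy'⟩ : ∃ y : ℝ, y = -Real.log s + m t := ⟨_, rfl⟩
  rw [← hz] at hone hfin ⊢
  rw [← hy'] at h1 h2 hy hyε hfin ⊢
  rw [← hK] at hone
  obtain ⟨e, he⟩ : ∃ e : ℝ, e = Real.exp (-(K t * qf b z)) := ⟨_, rfl⟩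
  rw [← he] at hfin ⊢
  have he0 : 0 < e := by rw [he]; exact Real.exp_pos _
  rw [hP, hP', hn', hm']
  have e2 : C * (-(a * P1 / τ) * (1 - e)
      + θ * P1 * ((K' t * qf b z - K t * q1f b z * -(1 / τ + 2 * Bq)) * e))
      + -(C * N * hh1 a y * -(γ / τ + 2 * Bq))
      + 2 * rd * (C * (θ * P1 * (K t * q1f b z * e / s)) + C * N * (hh1 a y / s))
      - 4 * s * (C * (θ * P1 * ((K t * q2f b z - K t ^ 2 * q1f b z ^ 2 - K t * q1f b z) * e
        / s ^ 2)) + C * N * ((hh2 a y - hh1 a y) / s ^ 2))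
      = C / s * (-(a * P1 * (s / τ) * (1 - e)) + θ * P1 * e * (K' t * qf b z * s)
        + θ * P1 * (K t * e * (q1f b z * ((1 / τ + 2 * Bq) * s + 2 * rd + 4) - 4 * q2f b z
          + 4 * K t * q1f b z ^ 2))
        + N * (hh1 a y * ((γ / τ + 2 * Bq) * s + 2 * rd + 4) - 4 * hh2 a y)) := by
    field_simp
    ring
  rw [e2]
  apply mul_pos (by positivity)
  have h3 : 0 ≤ θ * P1 * e * (K' t * qf b z * s) := by
    have := (qf_pos b z).le
    positivity
  have h4 : θ * P1 * (K t * e * (ε * b * Real.exp (-(b * z)))) ≤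
      θ * P1 * (K t * e * (q1f b z * ((1 / τ + 2 * Bq) * s + 2 * rd + 4) - 4 * q2f b z
          + 4 * K t * q1f b z ^ 2)) := by
    apply mul_le_mul_of_nonneg_left _ hθP
    exact mul_le_mul_of_nonneg_left hone (by positivity)
  have h5 : hh1 a y * ((γ - 2 * c) * (s / τ) - 2 * kL * w₀) ≤
      hh1 a y * ((γ / τ + 2 * Bq) * s + 2 * rd + 4) - 4 * hh2 a y := by
    have h6 : 4 * hh2 a y ≤ hh1 a y * (2 * ε) := by
      have h7 : 4 * ((a + 1) / y) ≤ 2 * ε := by
        rw [← mul_div_assoc, div_le_iff₀ hy]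
        linarith
      calc 4 * hh2 a y ≤ 4 * ((a + 1) / y * hh1 a y) := by linarith
        _ = hh1 a y * (4 * ((a + 1) / y)) := by ring
        _ ≤ hh1 a y * (2 * ε) := mul_le_mul_of_nonneg_left h7 h1.le
    have h8 : (γ - 2 * c) * (s / τ) - 2 * kL * w₀ + 2 * ε ≤ (γ / τ + 2 * Bq) * s + 2 * rd + 4 := by
      have e1 : (γ / τ + 2 * Bq) * s + 2 * rd + 4 - ((γ - 2 * c) * (s / τ) - 2 * kL * w₀ + 2 * ε)
          = 2 * (rd - (-(2 - ε) - kL * w₀ - (c / τ + Bq) * s)) := by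
        ring
      linarith
    have h9 := mul_le_mul_of_nonneg_left h8 h1.le
    nlinarith
  have h6 := mul_le_mul_of_nonneg_left h5 hN.le
  nlinarith

end Pool.Agent.D0H31.AT
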