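import Pool.Agent.D0H31.AT.Ineq

/-!
The choice of the final time interval.
-/

set_option autoImplicit false

open Set Filter Topology

namespace Pool.Agent.D0H31.AT

/-- The choice of the lower bound `L₀` of `√(log log (1 / (T - t)))`. -/
theorem choice (k K₀ q e₁ α NL ε b γ Θ₀ : ℝ) (hk : 0 ≤ k) (hK₀ : 0 ≤ K₀) (hq : 0 ≤ q)
    (he₁ : 1 ≤ e₁) (hα : 0 ≤ α) (hNL : 0 ≤ NL) (hε : 0 < ε) (hb : 0 < b) (hγ : γ < 1)
    (hσ : k * (e₁ * q) < 1) :
    ∃ L₀ : ℝ, 1 ≤ L₀ ∧ ∀ L : ℝ, L₀ ≤ L →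
      1 ≤ e₁ * (1 + q * L) ∧ Θ₀ ≤ Real.exp (L ^ 2) ∧
      2 * Real.log (e₁ * (1 + q * L)) ≤ (1 - γ) / 2 * Real.exp (L ^ 2) ∧
      2 * α * (e₁ * (1 + q * L)) ^ 3 + 2 * NL * (k * L) * (e₁ * (1 + q * L))
        < ε * b * (Real.exp (L ^ 2) * Real.exp (-((k * L + K₀)
          * (e₁ * (1 + q * L) + √(e₁ * (1 + q * L)))))) := by
  obtain ⟨w, hw⟩ : ∃ w : ℝ, w = e₁ * (1 + q) := ⟨_, rfl⟩
  have hw1 : 1 ≤ w := by rw [hw]; nlinarith
  have hw0 : 0 < w := by linarith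
  obtain ⟨D, hD⟩ : ∃ D : ℝ, D = k * e₁ + k * √w + K₀ * w + K₀ * √w := ⟨_, rfl⟩
  have hsw : 0 ≤ √w := Real.sqrt_nonneg _
  have he0 : 0 < e₁ := by linarith
  have hD0 : 0 ≤ D := by rw [hD]; positivity
  obtain ⟨A, hA⟩ : ∃ A : ℝ, A = 2 * α * w ^ 3 + 2 * NL * k * w := ⟨_, rfl⟩
  have hA0 : 0 ≤ A := by rw [hA]; positivity
  obtain ⟨L₁, hL₁, hL₁'⟩ := asym (k * (e₁ * q)) D A (ε * b) hσ hD0 hA0 (by positivity)
  have hγ0 : 0 < 1 - γ := by linarith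
  refine ⟨max (max L₁ Θ₀) (4 * w / (1 - γ)), le_trans hL₁ ((le_max_left _ _).trans
    (le_max_left _ _)), ?_⟩
  intro L hL
  have h1 : L₁ ≤ L := ((le_max_left _ _).trans (le_max_left _ _)).trans hL
  have h2 : Θ₀ ≤ L := ((le_max_right _ _).trans (le_max_left _ _)).trans hL
  have h3 : 4 * w / (1 - γ) ≤ L := (le_max_right _ _).trans hL
  have hL1 : 1 ≤ L := hL₁.trans h1
  have hL0 : 0 < L := by linarith
  obtain ⟨W, hW⟩ : ∃ W : ℝ, W = e₁ * (1 + q * L) := ⟨_, rfl⟩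
  rw [← hW]
  have hqL : 0 ≤ q * L := by positivity
  have hW1 : 1 ≤ W := by rw [hW]; nlinarith
  have hW0 : 0 < W := by linarith
  have hWw : W ≤ w * L := by
    rw [hW, hw]
    nlinarith
  have hexpL : L ^ 2 ≤ Real.exp (L ^ 2) := by
    have := Real.add_one_le_exp (L ^ 2)
    linarith
  have hL2 : L ≤ L ^ 2 := by nlinarith
  refine ⟨hW1, by linarith, ?_, ?_⟩
  · have h4 : Real.log W ≤ W := (Real.log_le_sub_one_of_pos hW0).trans (by linarith)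
    rw [div_le_iff₀ hγ0] at h3
    have h5 : 4 * w * L ≤ L * (1 - γ) * L := mul_le_mul_of_nonneg_right h3 hL0.le
    have h6 : (1 - γ) / 2 * L ^ 2 ≤ (1 - γ) / 2 * Real.exp (L ^ 2) :=
      mul_le_mul_of_nonneg_left hexpL (by linarith)
    nlinarith
  · have h4 := hL₁' L h1
    have h5 : 2 * α * W ^ 3 + 2 * NL * (k * L) * W ≤ A * L ^ 3 := by
      have h6 : W ^ 3 ≤ (w * L) ^ 3 := pow_le_pow_left₀ hW0.le hWw 3
      have h7 : 2 * α * W ^ 3 ≤ 2 * α * (w * L) ^ 3 := mul_le_mul_of_nonneg_left h6 (by positivity)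
      have h8 : 2 * NL * (k * L) * W ≤ 2 * NL * (k * L) * (w * L) :=
        mul_le_mul_of_nonneg_left hWw (by positivity)
      have h9 : 2 * NL * (k * L) * (w * L) ≤ 2 * NL * k * w * L ^ 3 := by
        have h10 : 0 ≤ 2 * NL * k * w := by positivity
        have h11 : L ^ 2 ≤ L ^ 3 := by nlinarith [sq_nonneg L]
        calc 2 * NL * (k * L) * (w * L) = 2 * NL * k * w * L ^ 2 := by ring
          _ ≤ 2 * NL * k * w * L ^ 3 := mul_le_mul_of_nonneg_left h11 h10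
      rw [hA]
      nlinarith
    refine (h5.trans_lt h4).trans_le ?_
    apply mul_le_mul_of_nonneg_left _ (by positivity)
    apply mul_le_mul_of_nonneg_left _ (Real.exp_pos _).le
    apply Real.exp_le_exp.2
    apply neg_le_neg
    obtain ⟨r, hr⟩ : ∃ r : ℝ, r = √L := ⟨_, rfl⟩
    have hr0 : 0 < r := by rw [hr]; exact Real.sqrt_pos.2 hL0
    have hr2 : r ^ 2 = L := by rw [hr]; exact Real.sq_sqrt hL0.le
    have hr1 : 1 ≤ r := by rw [hr]; exact Real.one_le_sqrt.2 hL1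
    rw [← hr]
    have hsW : √W ≤ √w * r := by
      rw [hr, ← Real.sqrt_mul hw0.le]
      exact Real.sqrt_le_sqrt hWw
    have hsW0 : 0 ≤ √W := Real.sqrt_nonneg _
    have hr3 : r ≤ r ^ 3 := by nlinarith [sq_nonneg r]
    have hr23 : r ^ 2 ≤ r ^ 3 := by nlinarith [sq_nonneg r]
    have g1 : k * L * W = k * (e₁ * q) * L ^ 2 + k * e₁ * L := by rw [hW]; ring
    have g2 : k * L * √W ≤ k * √w * r ^ 3 := by
      calc k * L * √W ≤ k * L * (√w * r) := mul_le_mul_of_nonneg_left hsW (by positivity)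
        _ = k * √w * r ^ 3 := by rw [← hr2]; ring
    have g3 : K₀ * W ≤ K₀ * w * r ^ 3 := by
      calc K₀ * W ≤ K₀ * (w * L) := mul_le_mul_of_nonneg_left hWw hK₀
        _ = K₀ * w * r ^ 2 := by rw [← hr2]; ring
        _ ≤ K₀ * w * r ^ 3 := mul_le_mul_of_nonneg_left hr23 (by positivity)
    have g4 : K₀ * √W ≤ K₀ * √w * r ^ 3 := by
      calc K₀ * √W ≤ K₀ * (√w * r) := mul_le_mul_of_nonneg_left hsW hK₀
        _ = K₀ * √w * r := by ring
        _ ≤ K₀ * √w * r ^ 3 := mul_le_mul_of_nonneg_left hr3 (by positivity)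
    have g5 : k * e₁ * L ≤ k * e₁ * r ^ 3 := by
      rw [← hr2]
      exact mul_le_mul_of_nonneg_left hr23 (by positivity)
    rw [hD]
    nlinarith

end Pool.Agent.D0H31.AT
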