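import Pool.Agent.Q65.AXI.LogPA
import Pool.Agent.D0H31.AT.Choice

/-!
Auxiliary estimates for the bound of the circulation.
-/

set_option autoImplicit false

open Set Filter Topology

namespace Pool.Agent.D0H31.AT

open Pool.Agent.Q65.AXI

theorem le_of_sq_le_sq_of_nonneg' {a b : ℝ} (h : a ^ 2 ≤ b ^ 2) (hb : 0 ≤ b) : a ≤ b :=
  (abs_le_of_sq_le_sq' h hb).2

/-- Decay of the first part of the barrier in terms of the logarithm of the distance. -/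
theorem first_bound (α b k K₀ K θ l z : ℝ) (hα : 1 < α) (hα2 : α ≤ 2) (hb0 : 0 < b)
    (hb4 : b ≤ 1 / 4) (hk : 0 ≤ k) (hK₀ : 1 ≤ K₀) (hθ : 1 ≤ θ) (hl1 : 1 ≤ l) (hK0 : 0 ≤ K)
    (hK : K ≤ (k + K₀) * θ) (hz : 2 * θ ≤ l → l / 2 - 1 / 4 ≤ z) :
    θ ^ (-α) * (1 - Real.exp (-(K * qf b z))) ≤ (2 ^ α + 32 * (k + K₀) / b ^ 2) * l ^ (-α) := by
  have hθ0 : 0 < θ := by linarith
  have hl0 : 0 < l := by linarith
  have hPp : 0 < θ ^ (-α) := Real.rpow_pos_of_pos hθ0 _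
  have hlα : 0 < l ^ (-α) := Real.rpow_pos_of_pos hl0 _
  obtain ⟨e, he⟩ : ∃ e : ℝ, e = Real.exp (-(K * qf b z)) := ⟨_, rfl⟩
  rw [← he]
  have he0 : 0 < e := by rw [he]; exact Real.exp_pos _
  have hkK : 0 < k + K₀ := by linarith
  have hsumpos : 0 ≤ 32 * (k + K₀) / b ^ 2 * l ^ (-α) := by positivity
  have hsumpos2 : 0 ≤ 2 ^ α * l ^ (-α) := by positivity
  have hsum : (2 ^ α + 32 * (k + K₀) / b ^ 2) * l ^ (-α)
      = 2 ^ α * l ^ (-α) + 32 * (k + K₀) / b ^ 2 * l ^ (-α) := by ring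
  rw [hsum]
  rcases le_total l (2 * θ) with hc2 | hc2
  · have h5 : θ ^ (-α) ≤ 2 ^ α * l ^ (-α) := by
      have h6 : (θ : ℝ) ^ (-α) ≤ (l / 2) ^ (-α) :=
        Real.rpow_le_rpow_of_nonpos (by positivity) (by linarith) (by linarith)
      rw [div_eq_mul_inv, Real.mul_rpow hl0.le (by norm_num),
        Real.inv_rpow (by norm_num), Real.rpow_neg (by norm_num : (0 : ℝ) ≤ 2), inv_inv] at h6
      linarith
    have h7 : θ ^ (-α) * (1 - e) ≤ θ ^ (-α) * 1 :=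
      mul_le_mul_of_nonneg_left (by linarith) hPp.le
    linarith
  · have hz1 := hz hc2
    have hz0 : 0 ≤ z := by linarith
    have hq2 : qf b z ≤ 2 * Real.exp (-(b * z)) := by
      unfold qf
      have h5 : b * z ≤ 1 / 4 * z := mul_le_mul_of_nonneg_right hb4 hz0
      have : Real.exp (-(z / 2)) ≤ Real.exp (-(b * z)) := by
        apply Real.exp_le_exp.2
        linarith
      linarith
    have he1 : 1 - e ≤ K * qf b z := by
      have := Real.add_one_le_exp (-(K * qf b z))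
      rw [he]
      linarith
    have hPK : θ ^ (-α) * K ≤ k + K₀ := by
      have h5 : θ ^ (-α) * θ ≤ 1 := by
        rw [← Real.rpow_add_one hθ0.ne']
        exact Real.rpow_le_one_of_one_le_of_nonpos (by linarith) (by linarith)
      calc θ ^ (-α) * K ≤ θ ^ (-α) * ((k + K₀) * θ) := mul_le_mul_of_nonneg_left hK hPp.le
        _ = (k + K₀) * (θ ^ (-α) * θ) := by ring
        _ ≤ (k + K₀) * 1 := mul_le_mul_of_nonneg_left h5 hkK.le
        _ = k + K₀ := mul_one _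
    have hexp : Real.exp (-(b * z)) ≤ 16 / b ^ 2 * l ^ (-α) := by
      have h5 : Real.exp (-(b * z)) ≤ Real.exp (b / 4) * Real.exp (-(b * l / 2)) := by
        rw [← Real.exp_add]
        apply Real.exp_le_exp.2
        have : b * (l / 2 - 1 / 4) ≤ b * z := mul_le_mul_of_nonneg_left hz1 hb0.le
        linarith
      have h6 : Real.exp (b / 4) ≤ 2 := by
        have h7 : Real.exp (b / 4) ≤ Real.exp (1 / 2) := Real.exp_le_exp.2 (by linarith)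
        have h8 : Real.exp (1 / 2) ≤ 2 := by
          have h9 : Real.exp (1 / 2) ^ 2 ≤ 2 ^ 2 := by
            rw [← Real.exp_nat_mul]
            have := Real.exp_one_lt_d9
            norm_num
            linarith
          exact le_of_sq_le_sq_of_nonneg' h9 (by norm_num)
        linarith
      have h7 : Real.exp (-(b * l / 2)) ≤ 8 / (b ^ 2 * l ^ 2) := by
        rw [Real.exp_neg, inv_le_comm₀ (Real.exp_pos _) (by positivity)]
        have h8 := Real.quadratic_le_exp_of_nonneg (show 0 ≤ b * l / 2 by positivity)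
        have h9 : 0 ≤ b * l / 2 := by positivity
        have h10 : (8 / (b ^ 2 * l ^ 2))⁻¹ = (b * l / 2) ^ 2 / 2 := by
          field_simp
          ring
        rw [h10]
        linarith
      have h8 : 1 / l ^ 2 ≤ l ^ (-α) := by
        have h9 : l ^ (-2 : ℝ) ≤ l ^ (-α) :=
          Real.rpow_le_rpow_of_exponent_le (by linarith) (by linarith)
        have h10 : l ^ (-2 : ℝ) = 1 / l ^ 2 := by
          rw [Real.rpow_neg hl0.le, one_div]
          norm_num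
        rwa [h10] at h9
      have h9 : Real.exp (-(b * z)) ≤ 2 * (8 / (b ^ 2 * l ^ 2)) :=
        h5.trans (mul_le_mul h6 h7 (Real.exp_pos _).le (by norm_num))
      have h10 : 2 * (8 / (b ^ 2 * l ^ 2)) = 16 / b ^ 2 * (1 / l ^ 2) := by
        field_simp
        norm_num
      rw [h10] at h9
      exact h9.trans (mul_le_mul_of_nonneg_left h8 (by positivity))
    have hqp := (qf_pos b z).le
    calc θ ^ (-α) * (1 - e) ≤ θ ^ (-α) * (K * qf b z) := mul_le_mul_of_nonneg_left he1 hPp.le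
      _ = θ ^ (-α) * K * qf b z := by ring
      _ ≤ (k + K₀) * qf b z := mul_le_mul_of_nonneg_right hPK hqp
      _ ≤ (k + K₀) * (2 * (16 / b ^ 2 * l ^ (-α))) := by
          apply mul_le_mul_of_nonneg_left _ hkK.le
          linarith
      _ = 32 * (k + K₀) / b ^ 2 * l ^ (-α) := by ring
      _ ≤ 2 ^ α * l ^ (-α) + 32 * (k + K₀) / b ^ 2 * l ^ (-α) := by linarith

/-- The final inequality at the touching points. -/
theorem touch_fin (α b ε k K₀ q β N g γ Λ e₁ L θ P1 ϱ w₀ z y K : ℝ) (hα0 : 0 < α) (hb0 : 0 < b)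
    (hb4 : b ≤ 1 / 4) (hε : 0 < ε) (hk : 0 ≤ k) (hβ0 : 0 < β) (hq : β * q = 2 * k) (hq0 : 0 ≤ q)
    (hN0 : 0 < N) (hNg : 4 ≤ N * (g - β)) (hg0 : 0 ≤ g) (hγ1 : γ < 1)
    (hΛ : Λ = ((1 - γ) / 2) ^ (-α - 1)) (he₁ : 1 ≤ e₁) (hL : 0 ≤ L) (hLθ : Real.exp (L ^ 2) = θ)
    (hΘ : 2 ≤ γ * θ) (hP1 : P1 = θ ^ (-α - 1)) (hϱ : 0 < ϱ) (hw₀0 : 0 ≤ w₀)
    (hw₀2 : w₀ ^ 2 = ϱ) (hwz : w₀ ≤ Real.exp (-(z / 2))) (hwe : Real.exp (-(z / 2)) ≤ e₁ * w₀)
    (hyz : y = (1 - γ) * θ + z) (hy0 : 0 < y) (hK : K = k * L + K₀) (hK1 : 1 ≤ K)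
    (ch1 : 1 ≤ e₁ * (1 + q * L))
    (ch2 : 2 * Real.log (e₁ * (1 + q * L)) ≤ (1 - γ) / 2 * Real.exp (L ^ 2))
    (ch3 : 2 * α * (e₁ * (1 + q * L)) ^ 3 + 2 * (N * (α * Λ)) * (k * L) * (e₁ * (1 + q * L))
        < ε * b * (Real.exp (L ^ 2) * Real.exp (-((k * L + K₀)
          * (e₁ * (1 + q * L) + √(e₁ * (1 + q * L))))))) :
    0 < -(α * P1 * ϱ * (1 - Real.exp (-(K * qf b z))))
      + θ * P1 * (K * Real.exp (-(K * qf b z)) * (ε * b * Real.exp (-(b * z))))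
      + N * hh1 α y * (g * ϱ - 2 * (k * L) * w₀) := by
  have hθ0 : 0 < θ := by rw [← hLθ]; exact Real.exp_pos _
  have hP10 : 0 < P1 := by rw [hP1]; exact Real.rpow_pos_of_pos hθ0 _
  have hΛ0 : 0 < Λ := by rw [hΛ]; exact Real.rpow_pos_of_pos (by linarith) _
  have hspos : 0 < Λ * P1 := by positivity
  by_cases hcase : 1 + q * L ≤ w₀
  · -- far
    have hqL : 0 ≤ q * L := by positivity
    have hz0 : z ≤ 0 := by
      by_contra hcn
      push Not at hcn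
      have h5 : Real.exp (-(z / 2)) < 1 := Real.exp_lt_one_iff.2 (by linarith)
      linarith
    have hsp : sp y ≤ θ := by
      refine (sp_le y hy0.le).trans ?_
      rw [hyz]
      linarith
    have hsig : 1 / 2 ≤ sig y := by
      unfold sig
      have h5 : 1 ≤ Real.exp y := Real.one_le_exp hy0.le
      rw [div_le_div_iff₀ (by norm_num) (by positivity)]
      linarith
    have hH : α / 2 * P1 ≤ hh1 α y := by
      unfold hh1
      have h5 : P1 ≤ sp y ^ (-α - 1) := by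
        rw [hP1]
        exact Real.rpow_le_rpow_of_nonpos (sp_pos _) hsp (by linarith)
      have h6 : P1 * (1 / 2) ≤ sp y ^ (-α - 1) * sig y :=
        mul_le_mul h5 hsig (by norm_num) (Real.rpow_pos_of_pos (sp_pos _) _).le
      calc α / 2 * P1 = α * (P1 * (1 / 2)) := by ring
        _ ≤ _ := mul_le_mul_of_nonneg_left h6 hα0.le
    have h2k : 2 * (k * L) ≤ β * w₀ := by
      have h5 : q * L ≤ w₀ := by linarith
      have h6 : β * (q * L) ≤ β * w₀ := mul_le_mul_of_nonneg_left h5 hβ0.le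
      have h7 : β * (q * L) = 2 * (k * L) := by
        calc β * (q * L) = β * q * L := by ring
          _ = 2 * (k * L) := by rw [hq]; ring
      linarith
    exact case_far α P1 ϱ (Real.exp (-(K * qf b z))) θ
      (K * Real.exp (-(K * qf b z)) * (ε * b * Real.exp (-(b * z)))) N (hh1 α y)
      g β (k * L) w₀ hα0 hP10 hϱ hw₀0 hw₀2 (Real.exp_pos _) (by positivity) hN0 hH hNg h2k
  · -- near
    push Not at hcase
    have hvW : Real.exp (-(z / 2)) ≤ e₁ * (1 + q * L) := by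
      refine hwe.trans ?_
      exact mul_le_mul_of_nonneg_left hcase.le (by linarith)
    have hyθ : (1 - γ) / 2 * θ ≤ y := by
      have h5 := Real.log_le_log (Real.exp_pos _) hvW
      rw [Real.log_exp] at h5
      rw [hLθ] at ch2
      rw [hyz]
      linarith
    have hH : hh1 α y ≤ α * Λ * P1 := by
      unfold hh1
      have h5 : sp y ^ (-α - 1) ≤ Λ * P1 := by
        rw [hΛ, hP1, ← Real.mul_rpow (by linarith) hθ0.le]
        exact Real.rpow_le_rpow_of_nonpos (mul_pos (by linarith) hθ0)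
          (hyθ.trans (le_sp y)) (by linarith)
      have h6 : sp y ^ (-α - 1) * sig y ≤ Λ * P1 * 1 :=
        mul_le_mul h5 (sig_lt y).le (sig_pos y).le hspos.le
      calc α * (sp y ^ (-α - 1) * sig y) ≤ α * (Λ * P1 * 1) :=
            mul_le_mul_of_nonneg_left h6 hα0.le
        _ = α * Λ * P1 := by ring
    refine case_near α P1 ϱ θ N (hh1 α y) g (k * L) w₀ K ε b z
      (e₁ * (1 + q * L)) Λ hα0 hP10 hϱ hw₀0 hw₀2 hN0 (hh1_pos α y hα0) hH hg0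
      (by positivity) hb0 hb4 hε ch1 hK1 hwz hvW hθ0 ?_
    rw [hLθ] at ch3
    rw [hK]
    refine lt_of_le_of_lt (le_of_eq ?_) ch3
    ring

/-- The size of `e^{-z/2}`. -/
theorem size_z (s τ z δ e₁ w₀ : ℝ) (hs0 : 0 < s) (hτ0 : 0 < τ) (hδ : 0 ≤ δ)
    (hδe : δ ≤ Real.log e₁) (he₁ : 1 < e₁) (hz : z = -Real.log s + (1 * Real.log τ - 2 * δ))
    (hw₀ : w₀ = √(s / τ)) :
    w₀ ≤ Real.exp (-(z / 2)) ∧ Real.exp (-(z / 2)) ≤ e₁ * w₀ := by
  have hϱ : 0 < s / τ := by positivity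
  have hw₀0 : 0 ≤ w₀ := by rw [hw₀]; exact Real.sqrt_nonneg _
  have hw₀2 : w₀ ^ 2 = s / τ := by rw [hw₀]; exact Real.sq_sqrt hϱ.le
  have hexpz : Real.exp (-(z / 2)) ^ 2 = s / τ * Real.exp (2 * δ) := by
    rw [← Real.exp_nat_mul]
    have e1 : ((2 : ℕ) : ℝ) * -(z / 2) = Real.log s - Real.log τ + 2 * δ := by
      rw [hz]
      push_cast
      ring
    rw [e1, Real.exp_add, Real.exp_sub, Real.exp_log hs0, Real.exp_log hτ0]
  constructor
  · apply le_of_sq_le_sq_of_nonneg' _ (Real.exp_pos _).le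
    rw [hexpz, hw₀2]
    have : 1 ≤ Real.exp (2 * δ) := Real.one_le_exp (by linarith)
    nlinarith
  · apply le_of_sq_le_sq_of_nonneg' _ (by positivity)
    rw [hexpz, mul_pow, hw₀2]
    have h5 : Real.exp (2 * δ) ≤ e₁ ^ 2 := by
      have h6 : 2 * δ ≤ 2 * Real.log e₁ := by linarith
      refine (Real.exp_le_exp.2 h6).trans (le_of_eq ?_)
      rw [two_mul, Real.exp_add, Real.exp_log (by linarith)]
      ring
    nlinarith

/-- The choice of the parameters. -/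
theorem params (c₁ k ε : ℝ) (hc₁ : 0 ≤ c₁) (hk : 0 ≤ k) (hck : c₁ + k ^ 2 < 1 / 2) (hε : 0 < ε) :
    ∃ b K₀ γ β N e₁ q ρ θ₁ : ℝ, 0 < b ∧ b ≤ 1 / 4 ∧ 4 * b ≤ ε ∧ 1 ≤ 4 * b ^ 2 * K₀ ∧ 1 ≤ K₀ ∧
      γ < 1 ∧ 0 < γ ∧ 2 * c₁ ≤ γ ∧ 0 < β ∧ 0 < N ∧ 4 ≤ N * ((γ - 2 * c₁) - β) ∧ 1 < e₁ ∧
      Real.log e₁ ≤ 1 / 8 ∧ 0 ≤ q ∧ β * q = 2 * k ∧ k * (e₁ * q) < 1 ∧
      0 < θ₁ ∧ θ₁ < 1 ∧ 0 < ρ ∧ ρ ≤ 1 ∧ ρ = 1 - γ / θ₁ := by
  obtain ⟨om, hom⟩ : ∃ om : ℝ, om = 1 - 2 * c₁ - 2 * k ^ 2 := ⟨_, rfl⟩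
  have hom0 : 0 < om := by rw [hom]; linarith
  have hom1 : om ≤ 1 := by rw [hom]; nlinarith [sq_nonneg k]
  obtain ⟨b, hb⟩ : ∃ b : ℝ, b = min (ε / 4) (1 / 4) := ⟨_, rfl⟩
  have hb0 : 0 < b := by rw [hb]; exact lt_min (by linarith) (by norm_num)
  have hb4 : b ≤ 1 / 4 := by rw [hb]; exact min_le_right _ _
  have hbε : 4 * b ≤ ε := by
    have : b ≤ ε / 4 := by rw [hb]; exact min_le_left _ _
    linarith
  obtain ⟨K₀, hK₀⟩ : ∃ K₀ : ℝ, K₀ = 1 / (4 * b ^ 2) := ⟨_, rfl⟩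
  have hK₀b : 1 ≤ 4 * b ^ 2 * K₀ := by
    rw [hK₀]
    have : 4 * b ^ 2 ≠ 0 := by positivity
    rw [mul_one_div_cancel this]
  have hK₀1 : 1 ≤ K₀ := by
    have h2 : 4 * b ^ 2 ≤ 1 / 4 := by nlinarith
    have h3 : 0 < 4 * b ^ 2 := by positivity
    by_contra hcn
    push Not at hcn
    nlinarith
  obtain ⟨γ, hγ⟩ : ∃ γ : ℝ, γ = 1 - om / 4 := ⟨_, rfl⟩
  have hγ1 : γ < 1 := by rw [hγ]; linarith
  have hγ0 : 0 < γ := by rw [hγ]; linarith
  have hγc : 2 * c₁ ≤ γ := by rw [hγ, hom]; nlinarith [sq_nonneg k]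
  obtain ⟨β, hβ⟩ : ∃ β : ℝ, β = 2 * k ^ 2 + om / 2 := ⟨_, rfl⟩
  have hβ0 : 0 < β := by rw [hβ]; positivity
  obtain ⟨N, hN⟩ : ∃ N : ℝ, N = 16 / om := ⟨_, rfl⟩
  have hN0 : 0 < N := by rw [hN]; positivity
  have hNg : 4 ≤ N * ((γ - 2 * c₁) - β) := by
    have e1 : (γ - 2 * c₁) - β = om / 4 := by rw [hγ, hβ, hom]; ring
    rw [e1, hN]
    apply le_of_eq
    field_simp
    norm_num
  obtain ⟨e₁, he₁⟩ : ∃ e₁ : ℝ, e₁ = 1 + om / 8 := ⟨_, rfl⟩
  have he₁1 : 1 < e₁ := by rw [he₁]; linarith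
  have hloge : Real.log e₁ ≤ 1 / 8 := by
    refine (Real.log_le_sub_one_of_pos (by linarith)).trans ?_
    rw [he₁]
    linarith
  obtain ⟨q, hq⟩ : ∃ q : ℝ, q = 2 * k / β := ⟨_, rfl⟩
  have hq0 : 0 ≤ q := by rw [hq]; positivity
  have hβq : β * q = 2 * k := by rw [hq]; field_simp
  have hσ : k * (e₁ * q) < 1 := by
    rw [hq, he₁]
    have e1 : k * ((1 + om / 8) * (2 * k / β)) = (2 * k ^ 2 + k ^ 2 * (om / 4)) / β := by
      field_simp
      ring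
    rw [e1, div_lt_one hβ0, hβ]
    have : k ^ 2 < 1 / 2 := by linarith
    nlinarith
  obtain ⟨θ₁, hθ₁⟩ : ∃ θ₁ : ℝ, θ₁ = (1 + γ) / 2 := ⟨_, rfl⟩
  have hθ₁0 : 0 < θ₁ := by rw [hθ₁]; linarith
  have hθ₁1 : θ₁ < 1 := by rw [hθ₁]; linarith
  have hθ₁γ : γ < θ₁ := by rw [hθ₁]; linarith
  obtain ⟨ρ, hρ⟩ : ∃ ρ : ℝ, ρ = 1 - γ / θ₁ := ⟨_, rfl⟩
  have hρ0 : 0 < ρ := by
    rw [hρ]
    have : γ / θ₁ < 1 := by rw [div_lt_one hθ₁0]; exact hθ₁γ
    linarith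
  have hρ1 : ρ ≤ 1 := by
    rw [hρ]
    have : 0 < γ / θ₁ := by positivity
    linarith
  exact ⟨b, K₀, γ, β, N, e₁, q, ρ, θ₁, hb0, hb4, hbε, hK₀b, hK₀1, hγ1, hγ0, hγc, hβ0, hN0, hNg,
    he₁1, hloge, hq0, hβq, hσ, hθ₁0, hθ₁1, hρ0, hρ1, hρ⟩

end Pool.Agent.D0H31.AT
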