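import Pool.Agent.D0H31.AT.Choice
import Pool.Agent.Q65.AXI.LogA

/-!
The functions of time in the two-part barrier.
-/

set_option autoImplicit false

open MeasureTheory Set Filter Topology

namespace Pool.Agent.D0H31.AT

open Pool.Agent.Q65.AXI

/-- `log (1 / (T - t))`. -/
noncomputable def tf (T t : ℝ) : ℝ := -Real.log (T - t)

theorem tf_deriv (T t : ℝ) (ht : t < T) : HasDerivAt (tf T) (1 / (T - t)) t := by
  have h0 : T - t ≠ 0 := by linarith
  have h1 : HasDerivAt (fun τ => T - τ) (-1) t := (hasDerivAt_id t).const_sub T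
  have h2 := (h1.log h0).neg
  refine h2.congr_deriv ?_
  field_simp

theorem pf_deriv (T a t : ℝ) (ht : t < T) (h : 0 < tf T t) :
    HasDerivAt (fun τ => tf T τ ^ (-a)) (-(a * tf T t ^ (-a - 1) / (T - t))) t := by
  have h1 := (tf_deriv T t ht).rpow_const (p := -a) (Or.inl h.ne')
  refine h1.congr_deriv ?_
  ring

/-- The derivative of the coefficient of the first part. -/
noncomputable def kf' (k T t : ℝ) : ℝ :=
  k * ((1 / (T - t) / tf T t) / (2 * √(Real.log (tf T t))))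

theorem kf_deriv (k K₀ T t : ℝ) (ht : t < T) (h : 1 < tf T t) :
    HasDerivAt (fun τ => k * √(Real.log (tf T τ)) + K₀) (kf' k T t) t := by
  have h0 : tf T t ≠ 0 := by linarith
  have hl : 0 < Real.log (tf T t) := Real.log_pos h
  have h1 := (((tf_deriv T t ht).log h0).sqrt hl.ne').const_mul k
  exact h1.add_const K₀

theorem kf'_nonneg (k T t : ℝ) (hk : 0 ≤ k) (ht : t < T) (h : 1 < tf T t) : 0 ≤ kf' k T t := by
  unfold kf'
  have h0 : 0 < T - t := by linarith
  have h1 : 0 < tf T t := by linarith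
  positivity

/-- `γ log (T - t) + 2 (b(t) - b₁)`. -/
noncomputable def mf (γ T b₁ : ℝ) (B : ℝ → ℝ) (t : ℝ) : ℝ :=
  γ * Real.log (T - t) + 2 * (tailI B T t - b₁)

theorem mf_deriv (γ T b₁ : ℝ) (B : ℝ → ℝ) (hi : IntegrableOn B (Ioo 0 T))
    (hc : ContinuousOn B (Ioo 0 T)) (t : ℝ) (ht : t ∈ Ioo 0 T) :
    HasDerivAt (mf γ T b₁ B) (-(γ / (T - t) + 2 * |B t|)) t := by
  unfold mf
  have h0 : T - t ≠ 0 := by have := ht.2; linarith
  have h1 : HasDerivAt (fun τ => T - τ) (-1) t := (hasDerivAt_id t).const_sub T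
  have h2 := (h1.log h0).const_mul γ
  have h3 := ((tailI_deriv B T hi hc t ht).sub_const b₁).const_mul 2
  refine (h2.add h3).congr_deriv ?_
  ring

/-- The tail of an integrable function is small. -/
theorem tail_small (B : ℝ → ℝ) (T : ℝ) (hT : 0 < T) (hi : IntegrableOn B (Ioo 0 T)) (η : ℝ)
    (hη : 0 < η) : ∃ T₂ : ℝ, 0 < T₂ ∧ T₂ < T ∧ tailI B T T₂ ≤ η := by
  have hint : IntegrableOn (fun τ => |B τ|) (uIcc 0 T) := by
    rw [uIcc_of_le hT.le, integrableOn_Icc_iff_integrableOn_Ioo]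
    exact hi.abs
  have hcont := intervalIntegral.continuousOn_primitive_interval_left (μ := volume) hint
  have h1 : ContinuousWithinAt (fun x => ∫ t in x..T, |B t|) (uIcc 0 T) T :=
    hcont T right_mem_uIcc
  rw [uIcc_of_le hT.le] at h1
  have h2 : Tendsto (fun x => ∫ t in x..T, |B t|) (𝓝[Icc 0 T] T) (𝓝 0) := by
    have := h1.tendsto
    simpa using this
  have h3 := h2.eventually (gt_mem_nhds hη)
  have h4 : 𝓝[<] T ≤ 𝓝[Icc 0 T] T := by
    rw [← nhdsWithin_Ioo_eq_nhdsLT hT]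
    exact nhdsWithin_mono _ Ioo_subset_Icc_self
  have h5 := (h4 h3 : ∀ᶠ x in 𝓝[<] T, (∫ t in x..T, |B t|) < η)
  have h6 : ∀ᶠ x in 𝓝[<] T, x ∈ Ioo 0 T := Ioo_mem_nhdsLT hT
  obtain ⟨x, hx1, hx2⟩ := (Filter.Eventually.and h5 h6).exists
  exact ⟨x, hx2.1, hx2.2, hx1.le⟩

end Pool.Agent.D0H31.AT
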