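import Pool.Agent.Q65.AXI.LogP
import Pool.Agent.D0H31.AT.Bar
import Pool.Agent.D0H31.AT.Time
import Pool.Agent.D0H31.AT.Est

/-!
The bound of the circulation from one-sided bounds of the radial velocity of the first type (with a
doubly logarithmic factor).
-/

set_option autoImplicit false

open MeasureTheory Set Metric Filter Topology
open scoped ContDiff
open H459R3.NS Pool.Agent.W268.NS Pool.Agent.Q67.VD

namespace Pool.Agent.D0H31.AT

open Pool.Agent.Q85.CC Pool.Agent.Q85.CL Pool.Agent.TH305.AX Pool.Agent.Q67.AXI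
open Pool.Agent.Q65.AXI

/-- The bound of the circulation. -/
theorem logT (hAlg : StmAlg) (hBar : StmBar) (T E c R H r h T₁ K c₁ k ε : ℝ) (u : ℝ → V → V)
    (p : ℝ → V → ℝ) (B : ℝ → ℝ) (α C : ℝ) (hA : AxL T E c R H u p) (hr : 0 < r) (hrR : r < R)
    (hr1 : r < 1) (hh0 : 0 < h) (hhH : h < H) (hT₁ : 0 < T₁) (hT₁T : T₁ < T)
    (hW : ∀ t ∈ Ico T₁ T, ∀ x ∈ Cy c r h, (sg x = r ^ 2 ∨ |x 2 - c| = h) → |WW (u t) x| ≤ K)
    (hBc : ContinuousOn B (Ioo 0 T)) (hBi : IntegrableOn B (Ioo 0 T)) (hα : 1 < α) (hα2 : α ≤ 2)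
    (hC : 0 ≤ C) (hc₁ : 0 ≤ c₁) (hk : 0 ≤ k) (hck : c₁ + k ^ 2 < 1 / 2) (hε : 0 < ε)
    (hcond : ∀ t ∈ Ioo T₁ T, ∀ x ∈ Co c r h, 0 < sg x → sg x < (T - t) ^ (2 * c₁) →
      C * |Real.log (sg x)| ^ (-α) < |circ (u t) x| → rad (vort (u t)) x = 0 →
      0 < circ (u t) x * vort (u t) x 2 →
      -(2 - ε) - k * √(Real.log (-Real.log (T - t)) * (sg x / (T - t)))
        - (c₁ / (T - t) + B t) * sg x ≤ rad (u t) x) :
    ∃ θ T₂ C' C₀ : ℝ, 0 < θ ∧ θ < 1 ∧ T₁ ≤ T₂ ∧ T₂ < T ∧ 0 ≤ C' ∧ 0 ≤ C₀ ∧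
      ∀ t ∈ Ico T₂ T, ∀ x ∈ Cy c r h, |circ (u t) x| ≤ C₀ ∧
        (0 < sg x → sg x ≤ (T - t) ^ θ → |circ (u t) x| ≤ C' * |Real.log (sg x)| ^ (-α)) := by
  have hr2 : r ^ 2 < 1 := pow_lt_one₀ hr.le hr1 (by norm_num)
  have hr20 : 0 < r ^ 2 := by positivity
  have hT : 0 < T := hT₁.trans hT₁T
  have hα0 : 0 < α := by linarith
  obtain ⟨C₀, hC₀, hbd⟩ := circ_bd hAlg hBar T E c R H r h T₁ K u p hA hr hrR hh0 hhH hT₁ hT₁T hW
  -- the parameters
  obtain ⟨b, K₀, γ, β, N, e₁, q, ρ, θ₁, hb0, hb4, hbε, hK₀b, hK₀1, hγ1, hγ0, hγc, hβ0, hN0, hNg,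
    he₁1, hloge, hq0, hβq, hσ, hθ₁0, hθ₁1, hρ0, hρ1, hρ⟩ := params c₁ k ε hc₁ hk hck hε
  obtain ⟨Λ, hΛ⟩ : ∃ Λ : ℝ, Λ = ((1 - γ) / 2) ^ (-α - 1) := ⟨_, rfl⟩
  have hΛ0 : 0 < Λ := by rw [hΛ]; exact Real.rpow_pos_of_pos (by linarith) _
  obtain ⟨L₀, hL₀, hL₀'⟩ := choice k K₀ q e₁ α (N * (α * Λ)) ε b γ
    (max (2 / γ) (max 2 (4 / (ρ * θ₁)))) hk (by linarith) hq0 he₁1.le hα0.le (by positivity) hε hb0
    hγ1 hσ
  -- the initial time
  obtain ⟨Tb, hTb0, hTbT, hTb⟩ := tail_small B T hT hBi (Real.log e₁) (Real.log_pos he₁1)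
  obtain ⟨T₂, hT₂⟩ : ∃ T₂ : ℝ,
      T₂ = max (max T₁ Tb) (T - Real.exp (-Real.exp (L₀ ^ 2))) := ⟨_, rfl⟩
  have hT₂1 : T₁ ≤ T₂ := by rw [hT₂]; exact (le_max_left _ _).trans (le_max_left _ _)
  have hT₂b : Tb ≤ T₂ := by rw [hT₂]; exact (le_max_right _ _).trans (le_max_left _ _)
  have hT₂e : T - Real.exp (-Real.exp (L₀ ^ 2)) ≤ T₂ := by rw [hT₂]; exact le_max_right _ _
  have hT₂T : T₂ < T := by
    rw [hT₂]
    refine max_lt (max_lt hT₁T hTbT) ?_
    have := Real.exp_pos (-Real.exp (L₀ ^ 2))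
    linarith
  have hT₂0 : 0 < T₂ := hT₁.trans_le hT₂1
  have hT₂I : T₂ ∈ Ioo 0 T := ⟨hT₂0, hT₂T⟩
  have hsm1 := sliceU hA.smooth_u hT₂I
  have hWc : Continuous (WW (u T₂)) := ((hAlg (u T₂) hsm1 (hA.axi T₂ hT₂I)).1.2.1).continuous
  obtain ⟨K₁, hK₁⟩ : ∃ K₁ : ℝ, ∀ x ∈ Cy c r h, |WW (u T₂) x| ≤ K₁ := by
    obtain ⟨K₁, hK₁⟩ := (cyCompact c r h).exists_bound_of_continuousOn (f := WW (u T₂))
      hWc.continuousOn
    exact ⟨K₁, hK₁⟩
  have hcW : ∀ t ∈ Ioo 0 T, ∀ x : V, circ (u t) x = sg x * WW (u t) x := by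
    intro t ht x
    exact ((hAlg (u t) (sliceU hA.smooth_u ht) (hA.axi t ht)).2.2.2 x).2.2.2.2.2.2.2.2.1
  have hIoo : ∀ t ∈ Ico T₂ T, t ∈ Ioo 0 T := fun t ht => ⟨hT₂0.trans_le ht.1, ht.2⟩
  -- the logarithm of the remaining time
  have hθexp : ∀ t ∈ Ico T₂ T, Real.exp (L₀ ^ 2) ≤ tf T t := by
    intro t ht
    have h1 : T - t ≤ Real.exp (-Real.exp (L₀ ^ 2)) := by linarith [ht.1]
    have h2 : 0 < T - t := by linarith [ht.2]
    have h3 := Real.log_le_log h2 h1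
    rw [Real.log_exp] at h3
    unfold tf
    linarith
  have hexp1 : 1 < Real.exp (L₀ ^ 2) := Real.one_lt_exp_iff.2 (by positivity)
  have hθ1 : ∀ t ∈ Ico T₂ T, 1 < tf T t := fun t ht => hexp1.trans_le (hθexp t ht)
  obtain ⟨Lf, hLf⟩ : ∃ Lf : ℝ → ℝ, Lf = fun t => √(Real.log (tf T t)) := ⟨_, rfl⟩
  have hLf0 : ∀ t ∈ Ico T₂ T, L₀ ≤ Lf t := by
    intro t ht
    rw [hLf]
    apply Real.le_sqrt_of_sq_le
    have := Real.log_le_log (Real.exp_pos _) (hθexp t ht)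
    rwa [Real.log_exp] at this
  have hLfe : ∀ t ∈ Ico T₂ T, Real.exp (Lf t ^ 2) = tf T t := by
    intro t ht
    have h1 := hθ1 t ht
    rw [hLf]
    simp only
    rw [Real.sq_sqrt (Real.log_pos h1).le, Real.exp_log (by linarith)]
  have hΘ : ∀ t ∈ Ico T₂ T, 2 / γ ≤ tf T t ∧ 2 ≤ tf T t ∧ 4 / (ρ * θ₁) ≤ tf T t := by
    intro t ht
    have h1 := (hL₀' (Lf t) (hLf0 t ht)).2.1
    rw [hLfe t ht] at h1
    exact ⟨(le_max_left _ _).trans h1, ((le_max_left _ _).trans (le_max_right _ _)).trans h1,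
      ((le_max_right _ _).trans (le_max_right _ _)).trans h1⟩
  -- the functions
  set b₁ := tailI B T T₂ with hb₁
  have hb₁e : b₁ ≤ Real.log e₁ := (tailI_anti B T hBi Tb T₂ hTb0.le hT₂b hT₂T.le).trans hTb
  have hbt0 : ∀ t ∈ Ico T₂ T, 0 ≤ tailI B T t := fun t ht => tailI_nonneg B T t ht.2.le
  have hbt1 : ∀ t ∈ Ico T₂ T, tailI B T t ≤ b₁ := fun t ht =>
    tailI_anti B T hBi T₂ t hT₂0.le ht.1 ht.2.le
  set P : ℝ → ℝ := fun t => tf T t ^ (-α) with hP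
  set P' : ℝ → ℝ := fun t => -(α * tf T t ^ (-α - 1) / (T - t)) with hP'
  set Kf : ℝ → ℝ := fun t => k * √(Real.log (tf T t)) + K₀ with hKf
  set n := mf 1 T b₁ B with hn
  set n' : ℝ → ℝ := fun t => -(1 / (T - t) + 2 * |B t|) with hn'
  set m := mf γ T b₁ B with hm
  set m' : ℝ → ℝ := fun t => -(γ / (T - t) + 2 * |B t|) with hm'
  have hPd : ∀ t ∈ Ico T₂ T, HasDerivAt P (P' t) t := fun t ht =>
    pf_deriv T α t ht.2 (by linarith [hθ1 t ht])
  have hKd : ∀ t ∈ Ico T₂ T, HasDerivAt Kf (kf' k T t) t := fun t ht =>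
    kf_deriv k K₀ T t ht.2 (hθ1 t ht)
  have hnd : ∀ t ∈ Ico T₂ T, HasDerivAt n (n' t) t := fun t ht =>
    mf_deriv 1 T b₁ B hBi hBc t (hIoo t ht)
  have hmd : ∀ t ∈ Ico T₂ T, HasDerivAt m (m' t) t := fun t ht =>
    mf_deriv γ T b₁ B hBi hBc t (hIoo t ht)
  have cont_of : ∀ {f f' : ℝ → ℝ}, (∀ t ∈ Ico T₂ T, HasDerivAt f (f' t) t) →
      ContinuousOn f (Ico T₂ T) := fun hf t ht => (hf t ht).continuousAt.continuousWithinAt
  have hP0 : ∀ t ∈ Ico T₂ T, 0 < P t := fun t ht =>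
    Real.rpow_pos_of_pos (by linarith [hθ1 t ht]) _
  have hKf0 : ∀ t, 1 ≤ Kf t := by
    intro t
    have : 0 ≤ k * √(Real.log (tf T t)) := by positivity
    show 1 ≤ k * √(Real.log (tf T t)) + K₀
    linarith
  have hmt0 : ∀ t ∈ Ico T₂ T, m t ≤ 0 := by
    intro t ht
    have h1 := hθ1 t ht
    have h2 := hbt1 t ht
    unfold tf at h1
    show γ * Real.log (T - t) + 2 * (tailI B T t - b₁) ≤ 0
    have h3 : γ * Real.log (T - t) ≤ 0 := mul_nonpos_of_nonneg_of_nonpos hγ0.le (by linarith)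
    linarith
  -- the constants
  set K₂ := (2 * α + 1) ^ α with hK₂
  have hK₂0 : 0 < K₂ := Real.rpow_pos_of_pos (by positivity) _
  obtain ⟨ℓ, hℓ⟩ : ∃ ℓ : ℝ, ℓ = 1 + 2 * (α + 1) / ε := ⟨_, rfl⟩
  have hℓ1 : 1 ≤ ℓ := by
    rw [hℓ]
    have : 0 ≤ 2 * (α + 1) / ε := by positivity
    linarith
  set CC := |K| * K₂ + |K₁| * K₂ + C * 2 ^ α + C₀ * (ℓ + 1) ^ α + 1 with hCC
  have p1 : 0 ≤ |K| * K₂ := by positivity
  have p2 : 0 ≤ |K₁| * K₂ := by positivity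
  have p3 : 0 ≤ C * 2 ^ α := by positivity
  have p4 : 0 ≤ C₀ * (ℓ + 1) ^ α := by positivity
  have hC1 : |K| * K₂ ≤ CC := by linarith
  have hC2 : |K₁| * K₂ ≤ CC := by linarith
  have hC3 : C * 2 ^ α ≤ CC := by linarith
  have hC4 : C₀ * (ℓ + 1) ^ α ≤ CC := by linarith
  have hC0 : 0 < CC := by linarith
  obtain ⟨D, hD⟩ : ∃ D : ℝ, D = CC / N := ⟨_, rfl⟩
  have hD0 : 0 < D := by rw [hD]; positivity
  have hDN : D * N = CC := by rw [hD]; field_simp
  have hpos : ∀ t s : ℝ, 0 < hh α (-Real.log s + m t) := fun t s => hh_pos _ _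
  have hKBkp : ∀ t ∈ Ico T₂ T, ∀ s : ℝ, CC * hh α (-Real.log s + m t) ≤
      KB D N α b P Kf n m t s := by
    intro t ht s
    unfold KB kp
    rw [hDN]
    have := br_nonneg b P Kf n t s (hP0 t ht).le (by linarith [hKf0 t])
    have := mul_nonneg hD0.le this
    linarith
  have hsle : ∀ t ∈ Ico T₂ T, ∀ s ∈ Ioc 0 (r ^ 2), s ≤ K₂ * √s * hh α (-Real.log s + m t) := by
    intro t ht s hs
    have h1 := Real.log_neg hs.1 (lt_of_le_of_lt hs.2 hr2)
    have h2 := hmt0 t ht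
    refine le_log_rpow α 1 hα0 (by norm_num) s _ hs.1 (lt_of_le_of_lt hs.2 hr2) (sp_pos _) ?_
    have h3 : sp (-Real.log s + m t) ≤ sp (-Real.log s) := sp_mono (by linarith)
    have h4 := sp_le (-Real.log s) (by linarith)
    linarith
  have hsle1 : ∀ t ∈ Ico T₂ T, ∀ s ∈ Ioc 0 (r ^ 2), s ≤ K₂ * hh α (-Real.log s + m t) := by
    intro t ht s hs
    refine (hsle t ht s hs).trans ?_
    apply mul_le_mul_of_nonneg_right _ (hpos t s).le
    have : √s ≤ 1 := Real.sqrt_le_one.2 (hs.2.trans hr2.le)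
    nlinarith
  have hmain := hBar T E c R H r h T₂ T u p (KB D N α b P Kf n m)
    (KBT D N α b P P' Kf (kf' k T) n n' m m') (KBS D N α b P Kf n m)
    (KBSS D N α b P Kf n m) hA hr hrR hh0 hhH hT₂0 hT₂T le_rfl ?_ ?_ ?_ ?_ ?_ ?_ ?_ ?_
  · -- the final bound
    obtain ⟨C', hC'⟩ : ∃ C' : ℝ, C' = D * 2 ^ α + 32 * D * (k + K₀) / b ^ 2
        + CC * (ρ / 2) ^ (-α) := ⟨_, rfl⟩
    have hρ2 : 0 < (ρ / 2) ^ (-α) := Real.rpow_pos_of_pos (by positivity) _
    refine ⟨θ₁, T₂, C', C₀, hθ₁0, hθ₁1, hT₂1, hT₂T, by rw [hC']; positivity, hC₀.le, ?_⟩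
    intro t ht x hx
    refine ⟨hbd t ⟨hT₂1.trans ht.1, ht.2⟩ x hx, fun hs hsθ => ?_⟩
    refine (hmain t ht x hx hs).trans ?_
    have hTt : 0 < T - t := by linarith [ht.2]
    have hs1 : sg x < 1 := lt_of_le_of_lt hx.1 hr2
    have hlabs : |Real.log (sg x)| = -Real.log (sg x) := abs_of_neg (Real.log_neg hs hs1)
    obtain ⟨l, hl⟩ : ∃ l : ℝ, l = -Real.log (sg x) := ⟨_, rfl⟩
    rw [hlabs, ← hl]
    obtain ⟨θ, hθ⟩ : ∃ θ : ℝ, θ = tf T t := ⟨_, rfl⟩
    have hθlog : Real.log (T - t) = -θ := by rw [hθ]; unfold tf; ring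
    obtain ⟨-, Θ2, Θ3⟩ := hΘ t ht
    rw [← hθ] at Θ2 Θ3
    have hθ0 : 0 < θ := by linarith
    have hlθ : θ₁ * θ ≤ l := by
      have h5 := Real.log_le_log hs hsθ
      rw [Real.log_rpow hTt, hθlog] at h5
      rw [hl]
      linarith
    have hl0 : 0 < l := lt_of_lt_of_le (by positivity) hlθ
    have hmtd : m t = γ * Real.log (T - t) + 2 * (tailI B T t - b₁) := rfl
    have hntd : n t = 1 * Real.log (T - t) + 2 * (tailI B T t - b₁) := rfl
    have hbt1' := hbt1 t ht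
    have hbt0' := hbt0 t ht
    have hb₁s : b₁ ≤ 1 / 8 := hb₁e.trans hloge
    have hlα : 0 < l ^ (-α) := Real.rpow_pos_of_pos hl0 _
    have hρl : 4 ≤ ρ * l := by
      rw [div_le_iff₀ (by positivity)] at Θ3
      have h7 : ρ * (θ₁ * θ) ≤ ρ * l := mul_le_mul_of_nonneg_left hlθ hρ0.le
      linarith
    have hl1 : 1 ≤ l := by
      have : ρ * l ≤ 1 * l := mul_le_mul_of_nonneg_right hρ1 hl0.le
      linarith
    -- the second part
    have hsec : kp (D * N) α m t (sg x) ≤ CC * (ρ / 2) ^ (-α) * l ^ (-α) := by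
      unfold kp hh
      rw [hDN, ← hl, mul_assoc]
      apply mul_le_mul_of_nonneg_left _ hC0.le
      rw [← Real.mul_rpow (by positivity) hl0.le]
      apply Real.rpow_le_rpow_of_nonpos (by positivity) _ (by linarith)
      refine le_trans ?_ (le_sp _)
      rw [hmtd, hθlog]
      have h5 : γ * θ ≤ γ / θ₁ * l := by
        have h6 : γ / θ₁ * (θ₁ * θ) ≤ γ / θ₁ * l :=
          mul_le_mul_of_nonneg_left hlθ (by positivity)
        have h7 : γ / θ₁ * (θ₁ * θ) = γ * θ := by field_simp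
        linarith
      have h7 : ρ * l = l - γ / θ₁ * l := by rw [hρ]; ring
      linarith
    -- the first part
    have hKt1 := hKf0 t
    have hPt : P t = θ ^ (-α) := by rw [hθ]
    have hLθ : Lf t ≤ θ := by
      have h5 := hLfe t ht
      have h6 := Real.add_one_le_exp (Lf t ^ 2)
      rw [h5, ← hθ] at h6
      have h7 := sq_nonneg (Lf t - 1)
      have h8 : (Lf t - 1) ^ 2 = Lf t ^ 2 - 2 * Lf t + 1 := by ring
      linarith
    have hKle : Kf t ≤ (k + K₀) * θ := by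
      have h5 : Kf t = k * Lf t + K₀ := by rw [hLf]
      rw [h5]
      have h6 : k * Lf t ≤ k * θ := mul_le_mul_of_nonneg_left hLθ hk
      have h7 : K₀ * 1 ≤ K₀ * θ := mul_le_mul_of_nonneg_left (by linarith) (by linarith)
      linarith
    have hfir : br b P Kf n t (sg x) ≤ (2 ^ α + 32 * (k + K₀) / b ^ 2) * l ^ (-α) := by
      unfold br
      rw [hPt, ← hl]
      refine first_bound α b k K₀ (Kf t) θ l (l + n t) hα hα2 hb0 hb4 hk hK₀1 (by linarith) hl1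
        (by linarith) hKle ?_
      intro hc2
      rw [hntd, hθlog]
      linarith
    unfold KB
    have h5 := mul_le_mul_of_nonneg_left hfir hD0.le
    have h6 : D * ((2 ^ α + 32 * (k + K₀) / b ^ 2) * l ^ (-α))
        = (D * 2 ^ α + 32 * D * (k + K₀) / b ^ 2) * l ^ (-α) := by ring
    rw [h6] at h5
    rw [hC']
    linarith
  · -- continuity
    unfold KB
    exact (continuousOn_const.mul (br_cont b P Kf n (Ico T₂ T) (r ^ 2) (cont_of hPd) (cont_of hKd)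
      (cont_of hnd))).add (kp_cont (D * N) α m (Ico T₂ T) (r ^ 2) (cont_of hmd))
  · intro t ht s hs
    have ht' : t ∈ Ico T₂ T := ⟨ht.1.le, ht.2⟩
    refine ⟨?_, ?_, ?_⟩
    · exact ((br_dt b P P' Kf (kf' k T) n n' t s (hPd t ht') (hKd t ht') (hnd t ht')).const_mul
        D).add (kp_dt (D * N) α m m' t s (hmd t ht'))
    · exact ((br_ds b P Kf n t s hs.1).const_mul D).add (kp_ds (D * N) α m t s hs.1)
    · exact ((br_dss b P Kf n t s hs.1).const_mul D).add (kp_dss (D * N) α m t s hs.1)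
  · intro t _
    exact (contDiffOn_const.mul (br_smooth b P Kf n t (r ^ 2))).add
      (kp_smooth (D * N) α m t (r ^ 2))
  · intro t ht s _
    exact (mul_pos hC0 (hpos t s)).le.trans (hKBkp t ht s)
  · -- near the axis
    intro T' hT' A
    refine ⟨(CC / (|A| * K₂ + 1)) ^ 2, by positivity, ?_⟩
    intro t ht s hs hsδ
    have ht' : t ∈ Ico T₂ T := ⟨ht.1, lt_of_le_of_lt ht.2 hT'.2⟩
    refine le_trans ?_ (hKBkp t ht' s)
    have h1 := hsle t ht' s hs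
    have h2 : √s ≤ CC / (|A| * K₂ + 1) := Real.sqrt_le_iff.2 ⟨by positivity, hsδ.le⟩
    rw [le_div_iff₀ (by positivity)] at h2
    have h3 := hpos t s
    have h4 : A * s ≤ |A| * (K₂ * √s * hh α (-Real.log s + m t)) :=
      (mul_le_mul_of_nonneg_right (le_abs_self A) hs.1.le).trans
        (mul_le_mul_of_nonneg_left h1 (abs_nonneg A))
    have h5 : |A| * K₂ * √s ≤ CC := by
      have := Real.sqrt_nonneg s
      nlinarith
    have h6 := mul_le_mul_of_nonneg_right h5 h3.le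
    nlinarith
  · -- the lateral boundary
    intro t ht x hx hs hbx
    have ht' : t ∈ Ioo 0 T := hIoo t ht
    have hs' : sg x ∈ Ioc 0 (r ^ 2) := ⟨hs, hx.1⟩
    refine le_trans ?_ (hKBkp t ht (sg x))
    rw [hcW t ht' x, abs_mul, abs_of_pos hs]
    have h1 := (hW t ⟨hT₂1.trans ht.1, ht.2⟩ x hx hbx).trans (le_abs_self K)
    have h2 := hsle1 t ht _ hs'
    have h3 := hpos t (sg x)
    calc sg x * |WW (u t) x| ≤ (K₂ * hh α (-Real.log (sg x) + m t)) * |K| :=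
          mul_le_mul h2 h1 (abs_nonneg _) (by positivity)
      _ = |K| * K₂ * hh α (-Real.log (sg x) + m t) := by ring
      _ ≤ CC * hh α (-Real.log (sg x) + m t) := mul_le_mul_of_nonneg_right hC1 h3.le
  · -- the initial time
    intro x hx hs
    have ht : T₂ ∈ Ico T₂ T := ⟨le_rfl, hT₂T⟩
    have hs' : sg x ∈ Ioc 0 (r ^ 2) := ⟨hs, hx.1⟩
    refine le_trans ?_ (hKBkp T₂ ht (sg x))
    rw [hcW T₂ hT₂I x, abs_mul, abs_of_pos hs]
    have h1 := (hK₁ x hx).trans (le_abs_self K₁)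
    have h2 := hsle1 T₂ ht _ hs'
    have h3 := hpos T₂ (sg x)
    calc sg x * |WW (u T₂) x| ≤ (K₂ * hh α (-Real.log (sg x) + m T₂)) * |K₁| :=
          mul_le_mul h2 h1 (abs_nonneg _) (by positivity)
      _ = |K₁| * K₂ * hh α (-Real.log (sg x) + m T₂) := by ring
      _ ≤ CC * hh α (-Real.log (sg x) + m T₂) := mul_le_mul_of_nonneg_right hC2 h3.le
  · -- touching points
    intro t ht x hx hs σ hσ hk' h2 h0 h1
    have ht' : t ∈ Ico T₂ T := ⟨ht.1.le, ht.2⟩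
    have htI : t ∈ Ioo 0 T := hIoo t ht'
    have hTt : 0 < T - t := by linarith [ht.2]
    have hsr : sg x < r ^ 2 := hx.1
    have hs1 : sg x < 1 := hsr.trans hr2
    have hxC : x ∈ Cy c r h := ⟨hx.1.le, hx.2.le⟩
    obtain ⟨d0, d1, d2, d3⟩ := ((hAlg (u t) (sliceU hA.smooth_u htI)
      (hA.axi t htI)).2.2.2 x).2.2.2.2.2.2.2.2.2.2.1
    have hKt1 := hKf0 t
    have hkS : 0 < KBS D N α b P Kf n m t (sg x) := by
      unfold KBS kpS
      have h3 := hh1_pos α (-Real.log (sg x) + m t) hα0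
      have h4 := brS_nonneg b P Kf n t (sg x) hb0 (hP0 t ht').le (by linarith) hs
      have h5 : 0 < D * N * (hh1 α (-Real.log (sg x) + m t) / sg x) := by positivity
      have h6 := mul_nonneg hD0.le h4
      linarith
    have hk0 : 0 < KB D N α b P Kf n m t (sg x) :=
      (mul_pos hC0 (hpos t (sg x))).trans_le (hKBkp t ht' _)
    have hvort : vort (u t) x 2 = σ * (2 * KBS D N α b P Kf n m t (sg x)) := by
      rw [d0] at h0
      rw [d1] at h1
      have hor : x 0 ≠ 0 ∨ x 1 ≠ 0 := by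
        by_contra hcn
        push Not at hcn
        have : sg x = 0 := by unfold sg; rw [hcn.1, hcn.2]; ring
        linarith
      rcases hor with hx0 | hx1
      · apply mul_left_cancel₀ hx0
        rw [h0]; ring
      · apply mul_left_cancel₀ hx1
        rw [h1]; ring
    have habs : σ * circ (u t) x ≤ |circ (u t) x| := by
      rcases hσ with rfl | rfl
      · rw [one_mul]; exact le_abs_self _
      · rw [neg_one_mul]; exact neg_le_abs _
    have hmtd : m t = γ * Real.log (T - t) + 2 * (tailI B T t - b₁) := rfl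
    have hntd : n t = 1 * Real.log (T - t) + 2 * (tailI B T t - b₁) := rfl
    obtain ⟨y, hy⟩ : ∃ y : ℝ, y = -Real.log (sg x) + m t := ⟨_, rfl⟩
    have hyℓ : ℓ ≤ y := by
      by_contra hcn
      push Not at hcn
      have h5 : sp y ≤ ℓ + 1 := (sp_mono hcn.le).trans (sp_le ℓ (by linarith))
      have h6 : (ℓ + 1) ^ (-α) ≤ sp y ^ (-α) :=
        Real.rpow_le_rpow_of_nonpos (sp_pos _) h5 (by linarith)
      have h7 : C₀ ≤ CC * (ℓ + 1) ^ (-α) := by
        have h7 : (ℓ + 1) ^ α * (ℓ + 1) ^ (-α) = 1 := by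
          rw [← Real.rpow_add (by linarith), add_neg_cancel, Real.rpow_zero]
        have h8 : 0 < (ℓ + 1) ^ (-α) := Real.rpow_pos_of_pos (by linarith) _
        calc C₀ = C₀ * (ℓ + 1) ^ α * (ℓ + 1) ^ (-α) := by rw [mul_assoc, h7, mul_one]
          _ ≤ CC * (ℓ + 1) ^ (-α) := mul_le_mul_of_nonneg_right hC4 h8.le
      have h9 : CC * (ℓ + 1) ^ (-α) ≤ CC * sp y ^ (-α) := mul_le_mul_of_nonneg_left h6 hC0.le
      have h10 := hKBkp t ht' (sg x)
      rw [← hy] at h10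
      unfold hh at h10
      have h11 := hbd t ⟨hT₂1.trans ht'.1, ht.2⟩ x hxC
      linarith
    have hy0 : 0 < y := by linarith
    have hlog0 : Real.log (T - t) < 0 := by
      have := hθ1 t ht'
      unfold tf at this
      linarith
    have hbt1' := hbt1 t ht'
    have hbt0' := hbt0 t ht'
    have hyl : y ≤ -Real.log (sg x) := by
      have := hmt0 t ht'
      linarith
    have hsgT : sg x < (T - t) ^ (2 * c₁) := by
      rw [← Real.log_lt_log_iff hs (Real.rpow_pos_of_pos hTt _), Real.log_rpow hTt]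
      have h5 : γ * Real.log (T - t) ≤ 2 * c₁ * Real.log (T - t) :=
        mul_le_mul_of_nonpos_right hγc hlog0.le
      linarith
    have hlabs : |Real.log (sg x)| = -Real.log (sg x) := abs_of_neg (Real.log_neg hs hs1)
    have hthr : C * |Real.log (sg x)| ^ (-α) ≤ KB D N α b P Kf n m t (sg x) := by
      refine le_trans ?_ (hKBkp t ht' _)
      rw [hlabs, ← hy]
      obtain ⟨l, hl⟩ : ∃ l : ℝ, l = -Real.log (sg x) := ⟨_, rfl⟩
      rw [← hl] at hyl ⊢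
      have hl0 : 0 < l := by linarith
      have h5 : sp y ≤ 2 * l := (sp_le y hy0.le).trans (by linarith)
      have h6 : (2 * l) ^ (-α) ≤ sp y ^ (-α) :=
        Real.rpow_le_rpow_of_nonpos (sp_pos _) h5 (by linarith)
      rw [Real.mul_rpow (by norm_num) hl0.le] at h6
      have h7 : (2 : ℝ) ^ α * 2 ^ (-α) = 1 := by
        rw [← Real.rpow_add (by norm_num), add_neg_cancel, Real.rpow_zero]
      have h8 : (0 : ℝ) < 2 ^ (-α) := by positivity
      have h9 : 0 < l ^ (-α) := Real.rpow_pos_of_pos hl0 _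
      calc C * l ^ (-α) = C * (2 ^ α * 2 ^ (-α)) * l ^ (-α) := by rw [h7, mul_one]
        _ = C * 2 ^ α * (2 ^ (-α) * l ^ (-α)) := by ring
        _ ≤ CC * (2 ^ (-α) * l ^ (-α)) := mul_le_mul_of_nonneg_right hC3 (by positivity)
        _ ≤ CC * sp y ^ (-α) := mul_le_mul_of_nonneg_left h6 hC0.le
    have hrd := hcond t ⟨hT₂1.trans_lt ht.1, ht.2⟩ x hx hs hsgT
      (lt_of_le_of_lt hthr (lt_of_lt_of_le hk' habs))
      (by rw [d3]; rw [d2] at h2; linarith)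
      (by
        rw [hvort]
        have : circ (u t) x * (σ * (2 * KBS D N α b P Kf n m t (sg x)))
            = 2 * (σ * circ (u t) x) * KBS D N α b P Kf n m t (sg x) := by ring
        rw [this]
        have : 0 < σ * circ (u t) x := hk0.trans hk'
        positivity)
    -- the quantities
    obtain ⟨τ, hτ⟩ : ∃ τ : ℝ, τ = T - t := ⟨_, rfl⟩
    obtain ⟨s, hsx⟩ : ∃ s : ℝ, s = sg x := ⟨_, rfl⟩
    obtain ⟨θ, hθ⟩ : ∃ θ : ℝ, θ = tf T t := ⟨_, rfl⟩
    obtain ⟨L, hL⟩ : ∃ L : ℝ, L = Lf t := ⟨_, rfl⟩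
    obtain ⟨P1, hP1⟩ : ∃ P1 : ℝ, P1 = θ ^ (-α - 1) := ⟨_, rfl⟩
    obtain ⟨w₀, hw₀⟩ : ∃ w₀ : ℝ, w₀ = √(s / τ) := ⟨_, rfl⟩
    obtain ⟨z, hz⟩ : ∃ z : ℝ, z = -Real.log s + n t := ⟨_, rfl⟩
    have hθ1' : 1 < θ := by rw [hθ]; exact hθ1 t ht'
    have hθ0 : 0 < θ := by linarith
    have hP10 : 0 < P1 := by rw [hP1]; exact Real.rpow_pos_of_pos hθ0 _
    have hτ0 : 0 < τ := by rw [hτ]; exact hTt
    have hs0 : 0 < s := by rw [hsx]; exact hs
    have hϱ : 0 < s / τ := by positivity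
    have hw₀0 : 0 ≤ w₀ := by rw [hw₀]; exact Real.sqrt_nonneg _
    have hw₀2 : w₀ ^ 2 = s / τ := by rw [hw₀]; exact Real.sq_sqrt hϱ.le
    have hL1 : 1 ≤ L := by rw [hL]; exact hL₀.trans (hLf0 t ht')
    obtain ⟨hwz, hwe⟩ := size_z s τ z (b₁ - tailI B T t) e₁ w₀ hs0 hτ0 (by linarith)
      (by linarith) he₁1 (by rw [hz, hntd, ← hτ]; ring) hw₀
    have hyz : y = (1 - γ) * θ + z := by
      rw [hy, hz, hmtd, hntd, hθ, hsx]
      unfold tf
      ring
    have hLθ : Real.exp (L ^ 2) = θ := by rw [hL, hθ]; exact hLfe t ht'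
    obtain ⟨ch1, -, ch2, ch3⟩ := hL₀' L (by rw [hL]; exact hLf0 t ht')
    obtain ⟨Θ1, Θ2, -⟩ := hΘ t ht'
    rw [← hθ] at Θ1 Θ2
    have hKt : Kf t = k * L + K₀ := by rw [hL, hLf]
    have hPt : P t = θ * P1 := by
      show tf T t ^ (-α) = θ * P1
      rw [← hθ, hP1]
      have : θ ^ (-α) = θ ^ (-α - 1) * θ := by
        rw [← Real.rpow_add_one hθ0.ne']
        congr 1
        ring
      rw [this, mul_comm]
    rw [← hsx] at hy
    rw [← hsx, ← hτ] at hrd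
    rw [← hsx]
    refine KB_ineq D N α b ε K₀ (k * L) c₁ γ τ θ P1 |B t| w₀ P P' Kf (kf' k T) n n' m m' t s
      (rad (u t) x) hD0 hN0 hα0 hs0 hτ0 hb0 hb4 hbε hK₀b (by positivity) (by linarith)
      (by positivity) hPt (by rw [hP', hP1, hθ, hτ]) hKt (kf'_nonneg k T t hk ht.2 (hθ1 t ht'))
      (by linarith) (by rw [hn', hτ]) (by rw [hm', hτ]) (by rw [← hz]; exact hwz) ?_
      (by rw [← hy]; exact hy0) ?_ ?_
    · -- the inflow
      have h5 : √(Real.log (-Real.log τ) * (s / τ)) = L * w₀ := by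
        have h6 : 0 ≤ Real.log (-Real.log τ) := by
          have : -Real.log τ = θ := by rw [hθ, hτ]; rfl
          rw [this]
          exact (Real.log_pos hθ1').le
        rw [Real.sqrt_mul h6, hL, hLf, hw₀, hτ]
        rfl
      rw [h5] at hrd
      have h6 : (c₁ / τ + B t) * s ≤ (c₁ / τ + |B t|) * s :=
        mul_le_mul_of_nonneg_right (by linarith [le_abs_self (B t)]) hs0.le
      have h7 : k * L * w₀ = k * (L * w₀) := by ring
      rw [h7]
      linarith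
    · rw [← hy]
      have h5 : ε * ℓ ≤ ε * y := mul_le_mul_of_nonneg_left hyℓ hε.le
      have h6 : ε * ℓ = ε + 2 * (α + 1) := by
        rw [hℓ]
        field_simp
      linarith
    · rw [← hy, ← hz]
      exact touch_fin α b ε k K₀ q β N (γ - 2 * c₁) γ Λ e₁ L θ P1 (s / τ) w₀ z y (Kf t) hα0 hb0
        hb4 hε hk hβ0 hβq hq0 hN0 hNg (by linarith) hγ1 hΛ he₁1.le (by linarith) hLθ
        (by rw [div_le_iff₀ hγ0] at Θ1; linarith) hP1 hϱ hw₀0 hw₀2 hwz hwe hyz hy0 hKt hKt1 ch1 ch2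
        ch3

end Pool.Agent.D0H31.AT
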