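import Pool.Agent.Q67.AXI.Fin
import Pool.Agent.D0H31.AT.Main

/-!
The theorem at the singular points, all viscosities (the transfer follows
`Pool.Agent.Q67.AXI.infl_D2`).
-/

set_option autoImplicit false

open MeasureTheory Set Metric Filter Topology
open scoped ContDiff
open H459R3.NS Pool.Agent.W268.NS Pool.Agent.Q67.VD

namespace Pool.Agent.D0H31.AT

open Pool.Agent.Q85.CC Pool.Agent.Q85.CL Pool.Agent.TH305.AX Pool.Agent.Q67.AXI

/-- The solution `u`, viscosity `ν`, has near the point `a` of the axis and near the time `T`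
points with non-negligible swirl, zero radial vorticity and an inflow of the second type. -/
def InflT (ν T : ℝ) (u : ℝ → V → V) (a : V) : Prop :=
  ∀ (B : ℝ → ℝ) (c k ε α C T₀ R : ℝ), ContinuousOn B (Ioo 0 T) → IntegrableOn B (Ioo 0 T) →
    0 ≤ c → 0 ≤ k → c + k ^ 2 < 1 / 2 → 0 < ε → 3 / 2 < α → 0 ≤ C → T₀ < T → 0 < R →
      ∃ t ∈ Ioo 0 T, T₀ < t ∧ ∃ x : V, ‖x - a‖ ≤ R ∧ 0 < sg x ∧ sg x < 1 ∧
        sg x < (ν * (T - t)) ^ (2 * c) ∧
        C * |Real.log (sg x)| ^ (-α) < |circ (u t) x| ∧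
        rad (vort (u t)) x = 0 ∧ 0 < circ (u t) x * vort (u t) x 2 ∧
        rad (u t) x < -(ν * (2 - ε))
          - k * √(ν * Real.log (Real.log (1 / (ν * (T - t)))) * (sg x / (T - t)))
          - (c / (T - t) + B t) * sg x

/-- The local theorem, all viscosities. -/
theorem inflT_D {ν T E : ℝ} {Ω : Set V} {u : ℝ → V → V}
    {p : ℝ → V → ℝ} (hν : 0 < ν) (h : DSl ν T E Ω u p)
    (hax : ∀ t ∈ Ioo 0 T, ∀ (θ : ℝ), ∀ x ∈ Ω, rot θ x ∈ Ω → u t (rot θ x) = rot θ (u t x))
    {a : V} (ha : a ∈ Ω) (ha0 : a 0 = 0) (ha1 : a 1 = 0) (hs : Sing T u a) : InflT ν T u a := by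
  have hT := hs.pos
  have hae : a = ![0, 0, a 2] := by
    funext i
    fin_cases i
    · exact ha0
    · exact ha1
    · rfl
  intro B c k ε α C T₀ R hBc hBi hc hk hck hε hα hC hT₀ hR
  by_contra hcon
  push Not at hcon
  obtain ⟨R', hR', hRR, hsub⟩ := small_ball h.openO ha hR
  rw [hae] at hsub
  obtain ⟨E', v, q, hL, hv⟩ := hTra ν T E Ω u p hν hT h hax (a 2) R' hR' hsub
  have hR2 : 0 < R' / 2 := by positivity
  have hνi : 0 < ν⁻¹ := inv_pos.2 hν
  have hmt : MapsTo (fun s : ℝ => s / ν) (Ioo 0 (ν * T)) (Ioo 0 T) := by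
    intro s hs
    exact ⟨div_pos hs.1 hν, by rw [div_lt_iff₀ hν, mul_comm]; exact hs.2⟩
  have hBc' : ContinuousOn (fun s => ν⁻¹ * B (s / ν)) (Ioo 0 (ν * T)) :=
    continuousOn_const.mul (hBc.comp (by fun_prop) hmt)
  have hBi' : IntegrableOn (fun s => ν⁻¹ * B (s / ν)) (Ioo 0 (ν * T)) := by
    have h1 : Integrable ((Ioo 0 T).indicator B) :=
      (integrable_indicator_iff measurableSet_Ioo).2 hBi
    have h2 := (h1.comp_div hν.ne').const_mul ν⁻¹
    rw [← integrable_indicator_iff measurableSet_Ioo]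
    refine h2.congr (Eventually.of_forall fun s => ?_)
    by_cases hs : s ∈ Ioo 0 (ν * T)
    · simp only [indicator_of_mem hs, indicator_of_mem (hmt hs)]
    · have hs' : s / ν ∉ Ioo 0 T := by
        intro hs'
        apply hs
        refine ⟨by have := mul_pos hs'.1 hν; rwa [div_mul_cancel₀ _ hν.ne'] at this, ?_⟩
        have := (div_lt_iff₀ hν).1 hs'.2
        rwa [mul_comm] at this
      simp only [indicator_of_notMem hs, indicator_of_notMem hs', mul_zero]
  have hreg := mainT (ν * T) E' (a 2) (R' / 2) (R' / 2) (ν * T₀) c k ε v q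
    (fun s => ν⁻¹ * B (s / ν)) α
    (ν⁻¹ * C) (mul_pos hν hT) hR2 hR2 hL (mul_lt_mul_of_pos_left hT₀ hν) hBc' hBi' hα
    (by positivity) hc hk hck hε (by
      intro t' ht' hT0t' x hx hsx hsx1 hsx2 hcc hr hcv
      have ht := hmt ht'
      have htν : ν * (t' / ν) = t' := by field_simp
      have hT0 : T₀ < t' / ν := by
        rw [lt_div_iff₀ hν, mul_comm]
        exact hT0t'
      have hTt : ν * T - t' = ν * (T - t' / ν) := by
        rw [mul_sub, htν]
      have hTt0 : 0 < T - t' / ν := sub_pos.2 ht.2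
      rw [hTt] at hsx2
      have hvx : v t' x = ν⁻¹ • u (t' / ν) x := by
        rw [← hv _ ht x hx, htν]
      have hev : ∀ᶠ y in 𝓝 x, v t' y = ν⁻¹ • u (t' / ν) y := by
        filter_upwards [(isOpen_Co _ _ _).mem_nhds hx] with y hy
        rw [← hv _ ht y hy, htν]
      have hvo := vort_evD hev
      rw [circ_cm hvx] at hcc hcv
      rw [rad_cm hvo] at hr
      rw [hvo] at hcv
      rw [rad_cm hvx]
      have h1 := hcon (t' / ν) ht hT0 x (by
        rw [hae]
        refine (norm_Co hR2.le hx).trans ?_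
        rw [max_self]
        linarith) hsx hsx1 hsx2 (by
        rw [abs_mul, abs_of_pos hνi, mul_assoc] at hcc
        exact lt_of_mul_lt_mul_left hcc hνi.le) (by
        rcases mul_eq_zero.1 hr with h2 | h2
        · exact absurd h2 hνi.ne'
        · exact h2) (by
        have h2 : ν⁻¹ * circ (u (t' / ν)) x * (ν⁻¹ • vort (u (t' / ν)) x) 2
            = ν⁻¹ ^ 2 * (circ (u (t' / ν)) x * vort (u (t' / ν)) x 2) := by
          rw [Pi.smul_apply, smul_eq_mul]
          ring
        rw [h2] at hcv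
        exact (mul_pos_iff_of_pos_left (by positivity)).1 hcv)
      rw [hTt]
      obtain ⟨τ, hτ⟩ : ∃ τ : ℝ, τ = T - t' / ν := ⟨_, rfl⟩
      rw [← hτ] at h1 hTt0 ⊢
      have hlog : -Real.log (ν * τ) = Real.log (1 / (ν * τ)) := by
        rw [one_div, Real.log_inv]
      rw [hlog]
      obtain ⟨Λ, hΛ⟩ : ∃ Λ : ℝ, Λ = Real.log (Real.log (1 / (ν * τ))) := ⟨_, rfl⟩
      rw [← hΛ] at h1 ⊢
      have h3 := mul_le_mul_of_nonneg_left h1 hνi.le
      have hsq : ν⁻¹ * √(ν * Λ * (sg x / τ)) = √(Λ * (sg x / (ν * τ))) := by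
        have e1 : ν⁻¹ = √(ν⁻¹ ^ 2) := (Real.sqrt_sq hνi.le).symm
        rw [e1, ← Real.sqrt_mul (by positivity)]
        congr 1
        field_simp
      have h4 : ν⁻¹ * (-(ν * (2 - ε)) - k * √(ν * Λ * (sg x / τ))
          - (c / τ + B (t' / ν)) * sg x)
          = -(2 - ε) - k * (ν⁻¹ * √(ν * Λ * (sg x / τ)))
            - (c / (ν * τ) + ν⁻¹ * B (t' / ν)) * sg x := by
        field_simp
      rw [h4, hsq] at h3
      exact h3)
  have hb := backA hν hv (mem_Co_self hR2 hR2) hreg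
  rw [← hae] at hb
  exact hs.not_bdd hb

end Pool.Agent.D0H31.AT
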